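import Mathlib

set_option autoImplicit false

namespace Pool.Agent.H750Z

universe u

/-- The morphisms of the category OI: strictly increasing maps `[m] → [n]`. -/
def OI : ∀ m n : ℕ, (Fin m → Fin n) → Prop := fun _ _ ε => StrictMono ε

/-- The morphisms of the category FI: injective maps `[m] → [n]`. -/
def FI : ∀ m n : ℕ, (Fin m → Fin n) → Prop := fun _ _ ε => Function.Injective ε

/-- `P_n = K[x_{i,j} : i ∈ [c], j ∈ [n]]`. -/
abbrev Pn (K : Type u) [Field K] (c n : ℕ) : Type u := MvPolynomial (Fin c × Fin n) K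

/-- `P(ε) : P_m → P_n`, the `K`-algebra map `x_{i,j} ↦ x_{i,ε(j)}`. -/
noncomputable def Pmap (K : Type u) [Field K] (c : ℕ) {m n : ℕ} (ε : Fin m → Fin n) :
    Pn K c m →ₐ[K] Pn K c n :=
  MvPolynomial.rename (fun v => (v.1, ε v.2))

/-- A module over `P` on the category with objects `[n]` and morphisms `Mor` (`OI` or `FI`):
a functor to `K`-vector spaces with `M_n` a `P_n`-module and `M(ε)(p u) = P(ε)(p) M(ε)(u)`. -/
structure PMod (Mor : ∀ m n : ℕ, (Fin m → Fin n) → Prop) (K : Type u) [Field K] (c : ℕ) where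
  /-- the modules `M_n` -/
  obj : ℕ → Type u
  [addCommGroup : ∀ n, AddCommGroup (obj n)]
  [moduleK : ∀ n, Module K (obj n)]
  [moduleP : ∀ n, Module (Pn K c n) (obj n)]
  [tower : ∀ n, IsScalarTower K (Pn K c n) (obj n)]
  /-- the maps `M(ε)` -/
  map : ∀ {m n : ℕ} (ε : Fin m → Fin n), Mor m n ε → (obj m →ₗ[K] obj n)
  map_id : ∀ (n : ℕ) (h : Mor n n id) (x : obj n), map id h x = x
  map_comp : ∀ {l m n : ℕ} (ε : Fin l → Fin m) (η : Fin m → Fin n) (hε : Mor l m ε)
    (hη : Mor m n η) (h : Mor l n (η ∘ ε)) (x : obj l), map (η ∘ ε) h x = map η hη (map ε hε x)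
  map_smul : ∀ {m n : ℕ} (ε : Fin m → Fin n) (h : Mor m n ε) (p : Pn K c m) (x : obj m),
    map ε h (p • x) = Pmap K c ε p • map ε h x

attribute [instance] PMod.addCommGroup PMod.moduleK PMod.moduleP PMod.tower

variable {Mor : ∀ m n : ℕ, (Fin m → Fin n) → Prop} {K : Type u} [Field K] {c : ℕ}

/-- `M` is finitely generated: some finite subset of the disjoint union of the `M_n` lies in no
proper submodule (a family of `P_n`-submodules `N_n ≤ M_n` closed under all the maps `M(ε)`). -/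
def PMod.FG (M : PMod Mor K c) : Prop :=
  ∃ S : Set (Σ n, M.obj n), S.Finite ∧ ∀ N : ∀ n, Submodule (Pn K c n) (M.obj n),
    (∀ (m n : ℕ) (ε : Fin m → Fin n) (h : Mor m n ε) (x : M.obj m), x ∈ N m → M.map ε h x ∈ N n) →
    (∀ s ∈ S, s.2 ∈ N s.1) → ∀ n, N n = ⊤

/-- The projective dimension of the `P_n`-module `M_n` (Mathlib's `projectiveDimension`). -/
noncomputable def PMod.pd (M : PMod Mor K c) (n : ℕ) : WithBot ℕ∞ :=
  CategoryTheory.projectiveDimension (ModuleCat.of (Pn K c n) (M.obj n))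

end Pool.Agent.H750Z
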