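import Mathlib

set_option autoImplicit false

namespace Pool.Agent.H750Z.Hom

open CategoryTheory Abelian

universe u

section general

variable {R : Type u} [CommRing R]

/-- projective dimension less than `n` -/
abbrev PD (R : Type u) [CommRing R] (M : Type u) [AddCommGroup M] [Module R M] (n : ℕ) : Prop :=
  HasProjectiveDimensionLT (ModuleCat.of R M) n

variable {A B C : Type u} [AddCommGroup A] [Module R A] [AddCommGroup B] [Module R B]
  [AddCommGroup C] [Module R C]

theorem ses (f : A →ₗ[R] B) (g : B →ₗ[R] C) (hf : Function.Injective f)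
    (hg : Function.Surjective g) (h : Function.Exact f g) :
    (ModuleCat.shortComplexOfCompEqZero f g h.linearMap_comp_eq_zero).ShortExact :=
  ModuleCat.shortComplex_shortExact _ h hf hg

theorem pd_X3 (f : A →ₗ[R] B) (g : B →ₗ[R] C) (hf : Function.Injective f)
    (hg : Function.Surjective g) (h : Function.Exact f g) (n : ℕ) (h1 : PD R A n)
    (h2 : PD R B (n + 1)) : PD R C (n + 1) :=
  (ses f g hf hg h).hasProjectiveDimensionLT_X₃ n h1 h2

theorem pd_X1 (f : A →ₗ[R] B) (g : B →ₗ[R] C) (hf : Function.Injective f)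
    (hg : Function.Surjective g) (h : Function.Exact f g) (n : ℕ) (h2 : PD R B n)
    (h3 : PD R C (n + 1)) : PD R A n :=
  (ses f g hf hg h).hasProjectiveDimensionLT_X₁ n h2 h3

theorem pd_X2 (f : A →ₗ[R] B) (g : B →ₗ[R] C) (hf : Function.Injective f)
    (hg : Function.Surjective g) (h : Function.Exact f g) (n : ℕ) (h1 : PD R A n)
    (h3 : PD R C n) : PD R B n :=
  (ses f g hf hg h).hasProjectiveDimensionLT_X₂ n h1 h3

theorem pd_equiv (e : A ≃ₗ[R] B) (n : ℕ) (h : PD R A n) : PD R B n :=
  hasProjectiveDimensionLT_of_iso (X := ModuleCat.of R A) e.toModuleIso n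

theorem pd_mono {n m : ℕ} (hnm : n ≤ m) (h : PD R A n) : PD R A m :=
  hasProjectiveDimensionLT_of_ge (ModuleCat.of R A) n m hnm

theorem pd_prod (n : ℕ) (h1 : PD R A n) (h2 : PD R B n) : PD R (A × B) n :=
  pd_X2 (LinearMap.inl R A B) (LinearMap.snd R A B) LinearMap.inl_injective
    LinearMap.snd_surjective Function.Exact.inl_snd n h1 h2

theorem pi_id {ι : Type} [Fintype ι] [DecidableEq ι] (M : ι → Type u) [∀ i, AddCommGroup (M i)]
    [∀ i, Module R (M i)] :
    𝟙 (ModuleCat.of R (∀ i, M i)) = ∑ i, (ModuleCat.ofHom (LinearMap.proj (R := R) (φ := M) i) ≫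
      ModuleCat.ofHom (LinearMap.single R M i)) := by
  ext v j
  simp [ModuleCat.hom_sum, Finset.sum_apply]

theorem pd_pi {ι : Type} [Fintype ι] [DecidableEq ι] (M : ι → Type u) [∀ i, AddCommGroup (M i)]
    [∀ i, Module R (M i)] (n : ℕ) (h : ∀ i, PD R (M i) n) : PD R (∀ i, M i) n := by
  apply HasProjectiveDimensionLT.mk
  intro k hk Y e
  rw [← e.mk₀_id_comp, pi_id, Ext.mk₀_sum, Ext.sum_comp]
  apply Finset.sum_eq_zero
  intro i _
  have := h i
  rw [← Ext.mk₀_comp_mk₀, Ext.comp_assoc_of_second_deg_zero,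
    ((Ext.mk₀ (ModuleCat.ofHom (LinearMap.single R M i))).comp e
      (zero_add k)).eq_zero_of_hasProjectiveDimensionLT n hk, Ext.comp_zero]

/-- vanishing of `Ext^i (N, M)` -/
def EV (R : Type u) [CommRing R] (N M : Type u) [AddCommGroup N] [Module R N] [AddCommGroup M]
    [Module R M] (i : ℕ) : Prop :=
  ∀ e : Ext (ModuleCat.of R N) (ModuleCat.of R M) i, e = 0

variable {N : Type u} [AddCommGroup N] [Module R N]

theorem ev_retract (f : A →ₗ[R] B) (g : B →ₗ[R] A) (h : g.comp f = LinearMap.id) (i : ℕ)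
    (hB : EV R N B i) : EV R N A i := by
  intro e
  have h1 : 𝟙 (ModuleCat.of R A) = ModuleCat.ofHom f ≫ ModuleCat.ofHom g := by
    rw [← ModuleCat.ofHom_comp, h]; rfl
  rw [← e.comp_mk₀_id, h1, ← Ext.mk₀_comp_mk₀, ← Ext.comp_assoc_of_third_deg_zero,
    hB (e.comp (Ext.mk₀ (ModuleCat.ofHom f)) (add_zero i)), Ext.zero_comp]

theorem ev_pi {ι : Type} [Fintype ι] [DecidableEq ι] (M : ι → Type u) [∀ i, AddCommGroup (M i)]
    [∀ i, Module R (M i)] (k : ℕ) (h : ∀ i, EV R N (M i) k) : EV R N (∀ i, M i) k := by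
  intro e
  rw [← e.comp_mk₀_id, pi_id, Ext.mk₀_sum, Ext.comp_sum]
  apply Finset.sum_eq_zero
  intro i _
  rw [← Ext.mk₀_comp_mk₀, ← Ext.comp_assoc_of_third_deg_zero,
    h i (e.comp (Ext.mk₀ (ModuleCat.ofHom (LinearMap.proj (R := R) (φ := M) i))) (add_zero k)),
    Ext.zero_comp]

theorem ev_X3 (f : A →ₗ[R] B) (g : B →ₗ[R] C) (hf : Function.Injective f)
    (hg : Function.Surjective g) (h : Function.Exact f g) (i : ℕ) (h1 : EV R N A (i + 1))
    (h2 : EV R N B i) : EV R N C i := by
  intro e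
  obtain ⟨x, rfl⟩ := Ext.covariant_sequence_exact₃ (ModuleCat.of R N) (ses f g hf hg h) e rfl
    (h1 _)
  rw [h2 x, Ext.zero_comp]

theorem smul_ext_eq_zero (r : R) (hr : ∀ x : N, r • x = 0) (i : ℕ)
    (e : Ext (ModuleCat.of R N) (ModuleCat.of R A) i) : r • e = 0 := by
  have h1 : r • 𝟙 (ModuleCat.of R N) = 0 := by
    ext x; simpa using hr x
  rw [← e.mk₀_id_comp, ← Ext.smul_comp, ← Ext.mk₀_smul, h1, Ext.mk₀_zero, Ext.zero_comp]

theorem ev_reg (r : R) (hr : ∀ x : N, r • x = 0) (g : A →ₗ[R] C)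
    (hf : Function.Injective (LinearMap.lsmul R A r))
    (hg : Function.Surjective g) (h : Function.Exact (LinearMap.lsmul R A r) g) (i : ℕ)
    (h3 : ∀ j, j + 1 = i → EV R N C j) : EV R N A i := by
  intro e
  have hS := ses (LinearMap.lsmul R A r) g hf hg h
  have h0 : e.comp (Ext.mk₀ (ModuleCat.ofHom (LinearMap.lsmul R A r))) (add_zero i) = 0 := by
    have h1 : ModuleCat.ofHom (LinearMap.lsmul R A r) = r • 𝟙 (ModuleCat.of R A) := rfl
    rw [h1, Ext.mk₀_smul, Ext.comp_smul, Ext.comp_mk₀_id]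
    exact smul_ext_eq_zero r hr i e
  rcases i with _ | j
  · have := hS.mono_f
    apply Ext.postcomp_mk₀_injective_of_mono (ModuleCat.of R N)
      (ModuleCat.shortComplexOfCompEqZero (LinearMap.lsmul R A r) g h.linearMap_comp_eq_zero).f
    rw [map_zero]
    exact h0
  · obtain ⟨x, rfl⟩ := Ext.covariant_sequence_exact₁ (ModuleCat.of R N) hS e h0 rfl
    rw [h3 j rfl x, Ext.zero_comp]

theorem ev_of_pd [IsNoetherianRing R] (b : ℕ) (hR : ∀ i, i < b → EV R N R i) (s : ℕ) :
    ∀ (M : Type u) [AddCommGroup M] [Module R M] [Module.Finite R M], PD R M (s + 1) →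
      ∀ i, i + s < b → EV R N M i := by
  induction s with
  | zero =>
    intro M _ _ _ hM i hi
    obtain ⟨r, f, hf⟩ := Module.Finite.exists_fin' R M
    have hp : Projective (ModuleCat.of R M) :=
      projective_iff_hasProjectiveDimensionLT_one.2 hM
    have hp' : Module.Projective R M := (IsProjective.iff_projective M).2 hp
    obtain ⟨s, hs⟩ := Module.projective_lifting_property f LinearMap.id hf
    exact ev_retract s f hs i (ev_pi (fun _ : Fin r => R) i (fun _ => hR i (by omega)))
  | succ s ih =>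
    intro M _ _ _ hM i hi
    obtain ⟨r, f, hf⟩ := Module.Finite.exists_fin' R M
    have hK : PD R (LinearMap.ker f) (s + 1) :=
      ((LinearMap.shortExact_shortComplexKer hf).hasProjectiveDimensionLT_X₃_iff s
        (inferInstanceAs (Projective (ModuleCat.of R (Fin r → R))))).1 hM
    exact ev_X3 (LinearMap.ker f).subtype f (LinearMap.ker f).injective_subtype hf
      (LinearMap.exact_subtype_ker_map f) i (ih _ hK (i + 1) (by omega))
      (ev_pi (fun _ : Fin r => R) i (fun _ => hR i (by omega)))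

theorem not_pd [IsNoetherianRing R] (b : ℕ) (hR : ∀ i, i < b → EV R N R i)
    (M : Type u) [AddCommGroup M] [Module R M] [Module.Finite R M] (f : N →ₗ[R] M) (hf : f ≠ 0) :
    ¬ PD R M b := by
  intro h
  apply hf
  rcases b with _ | s
  · have hz := isZero_of_hasProjectiveDimensionLT_zero (ModuleCat.of R M)
    have : Subsingleton M := ModuleCat.isZero_iff_subsingleton.1 hz
    ext x
    exact Subsingleton.elim _ _
  · have h1 := ev_of_pd (s + 1) hR s M h 0 (by omega) (Ext.mk₀ (ModuleCat.ofHom f))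
    rw [Ext.mk₀_eq_zero_iff] at h1
    simpa using congrArg ModuleCat.Hom.hom h1

end general

section poly

open MvPolynomial

variable {K : Type u} [Field K] {σ : Type} [DecidableEq σ]

/-- the ideal generated by the `G v (x_v)`, `v ∈ S` -/
noncomputable def IS (G : σ → Polynomial K) (S : Finset σ) : Ideal (MvPolynomial σ K) :=
  Ideal.span ((fun v => Polynomial.aeval (X v : MvPolynomial σ K) (G v)) '' (S : Set σ))

omit [DecidableEq σ] in
theorem gen_mem (G : σ → Polynomial K) {S : Finset σ} {v : σ} (hv : v ∈ S) :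
    Polynomial.aeval (X v : MvPolynomial σ K) (G v) ∈ IS G S :=
  Ideal.subset_span ⟨v, hv, rfl⟩

omit [DecidableEq σ] in
theorem IS_mono (G : σ → Polynomial K) {S T : Finset σ} (h : S ⊆ T) : IS G S ≤ IS G T :=
  Ideal.span_mono (Set.image_mono (by exact_mod_cast h))

theorem IS_insert (G : σ → Polynomial K) (S : Finset σ) (k : σ) :
    IS G (insert k S) = Ideal.span {Polynomial.aeval (X k : MvPolynomial σ K) (G k)} ⊔ IS G S := by
  rw [IS, Finset.coe_insert, Set.image_insert_eq, Ideal.span_insert]; rfl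

theorem reg (G : σ → Polynomial K) (hG : ∀ v, (G v).Monic) (S : Finset σ) (k : σ) (hk : k ∉ S)
    (f : MvPolynomial σ K)
    (h : Polynomial.aeval (X k : MvPolynomial σ K) (G k) * f ∈ IS G S) : f ∈ IS G S := by
  let Q := MvPolynomial σ K ⧸ IS G S
  let Φ : MvPolynomial σ K →ₐ[K] Polynomial Q :=
    aeval (R := K) (fun j => if j = k then (Polynomial.X : Polynomial Q) else
      Polynomial.C (Ideal.Quotient.mk (IS G S) (X j)))
  let Ψ : Polynomial Q →+* Q := Polynomial.evalRingHom (Ideal.Quotient.mk (IS G S) (X k))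
  have h1 : ∀ p, Ψ (Φ p) = Ideal.Quotient.mk (IS G S) p := by
    intro p
    induction p using MvPolynomial.induction_on with
    | C a =>
      simp only [Φ, Ψ, aeval_C, Polynomial.algebraMap_apply, Polynomial.coe_evalRingHom,
        Polynomial.eval_C]
      rfl
    | add p q hp hq => simp only [map_add, hp, hq]
    | mul_X p j hp =>
      simp only [map_mul, hp]
      congr 1
      by_cases hj : j = k
      · subst hj; simp [Φ, Ψ]
      · simp [Φ, Ψ, hj]
  have h2 : ∀ p ∈ IS G S, Φ p = 0 := by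
    intro p hp
    have : IS G S ≤ RingHom.ker Φ := by
      refine Ideal.span_le.2 ?_
      rintro _ ⟨v, hv, rfl⟩
      have hvk : v ≠ k := fun h => hk (h ▸ hv)
      simp only [SetLike.mem_coe, RingHom.mem_ker]
      rw [← Polynomial.aeval_algHom_apply]
      have e1 : Φ (X v) = (Polynomial.CAlgHom (R := K) (A := Q))
          ((Ideal.Quotient.mkₐ K (IS G S)) (X v)) := by simp [Φ, hvk]
      rw [e1, Polynomial.aeval_algHom_apply, Polynomial.aeval_algHom_apply]
      have : (Ideal.Quotient.mkₐ K (IS G S)) (Polynomial.aeval (X v : MvPolynomial σ K) (G v))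
          = 0 := Ideal.Quotient.eq_zero_iff_mem.2 (gen_mem G hv)
      rw [this, map_zero]
    exact this hp
  have h3 := h2 _ h
  rw [map_mul, ← Polynomial.aeval_algHom_apply] at h3
  have e2 : Φ (X k) = Polynomial.X := by simp [Φ]
  rw [e2, Polynomial.aeval_X_left_eq_map] at h3
  have h4 : Φ f = 0 := by
    have hm := (hG k).map (algebraMap K Q)
    exact (hm.mul_right_eq_zero_iff).1 h3
  rw [← Ideal.Quotient.eq_zero_iff_mem, ← h1, h4, map_zero]

theorem step (G : σ → Polynomial K) (hG : ∀ v, (G v).Monic) (S : Finset σ) (k : σ) (hk : k ∉ S) :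
    ∃ g : (MvPolynomial σ K ⧸ IS G S) →ₗ[MvPolynomial σ K] (MvPolynomial σ K ⧸ IS G (insert k S)),
      Function.Injective (LinearMap.lsmul (MvPolynomial σ K) (MvPolynomial σ K ⧸ IS G S)
        (Polynomial.aeval (X k : MvPolynomial σ K) (G k))) ∧ Function.Surjective g ∧
      Function.Exact (LinearMap.lsmul (MvPolynomial σ K) (MvPolynomial σ K ⧸ IS G S)
        (Polynomial.aeval (X k : MvPolynomial σ K) (G k))) g := by
  refine ⟨Submodule.factor (IS_mono G (Finset.subset_insert k S)), ?_, ?_, ?_⟩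
  · rw [injective_iff_map_eq_zero]
    intro x hx
    obtain ⟨f, rfl⟩ := Submodule.Quotient.mk_surjective _ x
    rw [LinearMap.lsmul_apply, ← Submodule.Quotient.mk_smul, Submodule.Quotient.mk_eq_zero] at hx
    rw [Submodule.Quotient.mk_eq_zero]
    exact reg G hG S k hk f hx
  · exact Submodule.factor_surjective _
  · intro x
    obtain ⟨f, rfl⟩ := Submodule.Quotient.mk_surjective _ x
    constructor
    · intro hx
      have hx' : f ∈ IS G (insert k S) := (Submodule.Quotient.mk_eq_zero _).1 hx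
      rw [IS_insert] at hx'
      obtain ⟨a, ha, b, hb, rfl⟩ := Submodule.mem_sup.1 hx'
      obtain ⟨c, rfl⟩ := Ideal.mem_span_singleton'.1 ha
      refine ⟨Submodule.Quotient.mk c, ?_⟩
      rw [LinearMap.lsmul_apply, ← Submodule.Quotient.mk_smul, Submodule.Quotient.eq]
      simpa [mul_comm] using hb
    · rintro ⟨y, hy⟩
      obtain ⟨c, rfl⟩ := Submodule.Quotient.mk_surjective _ y
      rw [← hy, LinearMap.lsmul_apply, ← Submodule.Quotient.mk_smul]
      exact (Submodule.Quotient.mk_eq_zero _).2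
        (Ideal.mul_mem_right _ _ (gen_mem G (Finset.mem_insert_self k S)))

omit [DecidableEq σ] in
theorem IS_empty (G : σ → Polynomial K) : IS G ∅ = ⊥ := by simp [IS]

theorem pd_IS (G : σ → Polynomial K) (hG : ∀ v, (G v).Monic) (S : Finset σ) :
    PD (MvPolynomial σ K) (MvPolynomial σ K ⧸ IS G S) (S.card + 1) := by
  induction S using Finset.induction_on with
  | empty =>
    refine pd_equiv (Submodule.quotEquivOfEqBot _ (IS_empty G)).symm _ ?_
    exact inferInstanceAs (HasProjectiveDimensionLT (ModuleCat.of _ _) 1)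
  | insert k S hk ih =>
    obtain ⟨g, h1, h2, h3⟩ := step G hG S k hk
    rw [Finset.card_insert_of_notMem hk]
    exact pd_X3 _ g h1 h2 h3 _ ih (pd_mono (by omega) ih)

theorem ev_IS (G : σ → Polynomial K) (hG : ∀ v, (G v).Monic) (S : Finset σ) (i : ℕ) :
    ∀ T : Finset σ, T ⊆ S → i + T.card < S.card →
      EV (MvPolynomial σ K) (MvPolynomial σ K ⧸ IS G S) (MvPolynomial σ K ⧸ IS G T) i := by
  induction i using Nat.strong_induction_on with
  | _ i ih =>
    intro T hT hi
    obtain ⟨k, hkS, hkT⟩ : ∃ k ∈ S, k ∉ T := by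
      by_contra hcon
      push Not at hcon
      have := Finset.card_le_card (show S ⊆ T from hcon)
      omega
    obtain ⟨g, h1, h2, h3⟩ := step G hG T k hkT
    refine ev_reg _ ?_ g h1 h2 h3 i ?_
    · intro x
      obtain ⟨f, rfl⟩ := Submodule.Quotient.mk_surjective _ x
      rw [← Submodule.Quotient.mk_smul, Submodule.Quotient.mk_eq_zero]
      exact Ideal.mul_mem_right _ _ (gen_mem G hkS)
    · intro j hj
      refine ih j (by omega) _ (Finset.insert_subset hkS hT) ?_
      rw [Finset.card_insert_of_notMem hkT]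
      omega

theorem not_pd_IS [Finite σ] (G : σ → Polynomial K) (hG : ∀ v, (G v).Monic) (S : Finset σ)
    (M : Type u) [AddCommGroup M] [Module (MvPolynomial σ K) M]
    [Module.Finite (MvPolynomial σ K) M] (m : M) (hm : m ≠ 0)
    (h : ∀ v ∈ S, Polynomial.aeval (X v : MvPolynomial σ K) (G v) • m = 0) :
    ¬ PD (MvPolynomial σ K) M S.card := by
  have hle : IS G S ≤ LinearMap.ker (LinearMap.toSpanSingleton (MvPolynomial σ K) M m) := by
    rw [IS, Ideal.span_le]
    rintro _ ⟨v, hv, rfl⟩
    simpa using h v hv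
  refine not_pd (N := MvPolynomial σ K ⧸ IS G S) S.card ?_ M
    (Submodule.liftQ _ _ hle) ?_
  · intro i hi
    refine ev_retract (Submodule.quotEquivOfEqBot _ (IS_empty G)).symm.toLinearMap
      (Submodule.quotEquivOfEqBot _ (IS_empty G)).toLinearMap
      (LinearMap.ext fun x =>
        (Submodule.quotEquivOfEqBot _ (IS_empty G)).apply_symm_apply x) i ?_
    exact ev_IS G hG S i ∅ (Finset.empty_subset _) (by simpa using hi)
  · intro h0
    apply hm
    have := LinearMap.congr_fun h0 (Submodule.Quotient.mk 1)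
    rw [Submodule.liftQ_apply] at this
    simpa using this

end poly

end Pool.Agent.H750Z.Hom
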