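import Pool.Agent.H750Z.Defs
import Pool.Agent.H750Z.Hom

set_option autoImplicit false

namespace Pool.Agent.H750Z.Ex

open MvPolynomial Hom

universe u

variable {K : Type u} [Field K] {c : ℕ}

/-- the univariate polynomials attached to the variables -/
noncomputable def GG (i0 : Fin c) (g : Polynomial K) (n : ℕ) : Fin c × Fin n → Polynomial K :=
  fun v => if v.1 = i0 then g else Polynomial.X

/-- the ideal of the points -/
noncomputable def Itop (i0 : Fin c) (g : Polynomial K) (n : ℕ) : Ideal (Pn K c n) :=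
  IS (GG i0 g n) Finset.univ

/-- the ideal of the lines in direction `i` -/
noncomputable def Ii (i0 : Fin c) (g : Polynomial K) {n : ℕ} (i : Fin n) : Ideal (Pn K c n) :=
  IS (GG i0 g n) (Finset.univ.erase (i0, i))

/-- `g (x_i)` -/
noncomputable def gx (i0 : Fin c) (g : Polynomial K) {n : ℕ} (i : Fin n) : Pn K c n :=
  Polynomial.aeval (X (i0, i) : Pn K c n) g

/-- row `i` of `B` applied to `v` -/
noncomputable def row {n : ℕ} (B : Fin n → Fin n → Pn K c n) (i : Fin n) :
    (Fin n → Pn K c n) →ₗ[Pn K c n] Pn K c n where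
  toFun v := ∑ j, B i j * v j
  map_add' v w := by simp [mul_add, Finset.sum_add_distrib]
  map_smul' p v := by simp [Finset.mul_sum, mul_left_comm]

theorem row_apply {n : ℕ} (B : Fin n → Fin n → Pn K c n) (i : Fin n) (v : Fin n → Pn K c n) :
    row B i v = ∑ j, B i j * v j := rfl

/-- the relations -/
noncomputable def Rel (i0 : Fin c) (g : Polynomial K) {n : ℕ} (B : Fin n → Fin n → Pn K c n) :
    Submodule (Pn K c n) (Fin n → Pn K c n) where
  carrier := {v | (∀ j, v j ∈ Itop i0 g n) ∧ ∀ i, row B i v ∈ Ii i0 g i}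
  add_mem' := by
    rintro v w ⟨h1, h2⟩ ⟨h3, h4⟩
    exact ⟨fun j => add_mem (h1 j) (h3 j), fun i => by
      rw [map_add]; exact add_mem (h2 i) (h4 i)⟩
  zero_mem' := ⟨fun j => zero_mem _, fun i => by rw [map_zero]; exact zero_mem _⟩
  smul_mem' := by
    rintro p v ⟨h1, h2⟩
    exact ⟨fun j => Ideal.mul_mem_left _ p (h1 j), fun i => by
      rw [map_smul]; exact Ideal.mul_mem_left _ p (h2 i)⟩

theorem mem_Rel (i0 : Fin c) (g : Polynomial K) {n : ℕ} (B : Fin n → Fin n → Pn K c n)
    (v : Fin n → Pn K c n) :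
    v ∈ Rel i0 g B ↔ (∀ j, v j ∈ Itop i0 g n) ∧ ∀ i, row B i v ∈ Ii i0 g i := Iff.rfl

variable (i0 : Fin c) (g : Polynomial K)

theorem GG_monic (hg : g.Monic) (n : ℕ) (v : Fin c × Fin n) : (GG i0 g n v).Monic := by
  unfold GG
  split_ifs
  · exact hg
  · exact Polynomial.monic_X

theorem GG_i0 {n : ℕ} (i : Fin n) : GG i0 g n (i0, i) = g := by simp [GG]

theorem Ii_le {n : ℕ} (i : Fin n) : Ii i0 g i ≤ Itop i0 g n := IS_mono _ (Finset.subset_univ _)

theorem gx_mem_top {n : ℕ} (i : Fin n) : gx i0 g i ∈ Itop i0 g n := by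
  have := gen_mem (GG i0 g n) (Finset.mem_univ (i0, i))
  rwa [GG_i0] at this

theorem gx_mem_Ii {n : ℕ} {i k : Fin n} (h : i ≠ k) : gx i0 g i ∈ Ii i0 g k := by
  have := gen_mem (GG i0 g n) (S := Finset.univ.erase (i0, k)) (v := (i0, i)) (by simpa using h)
  rwa [GG_i0] at this

theorem Itop_eq {n : ℕ} (i : Fin n) : Itop i0 g n = Ideal.span {gx i0 g i} ⊔ Ii i0 g i := by
  have h := IS_insert (GG i0 g n) (Finset.univ.erase (i0, i)) (i0, i)
  rw [Finset.insert_erase (Finset.mem_univ _), GG_i0] at h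
  exact h

theorem Pmap_IS {m n : ℕ} (ε : Fin m → Fin n) (S : Finset (Fin c × Fin m))
    (T : Finset (Fin c × Fin n)) (h : ∀ v ∈ S, (v.1, ε v.2) ∈ T) (p : Pn K c m)
    (hp : p ∈ IS (GG i0 g m) S) : Pmap K c ε p ∈ IS (GG i0 g n) T := by
  have : IS (GG i0 g m) S ≤ (IS (GG i0 g n) T).comap (Pmap K c ε) := by
    refine Ideal.span_le.2 ?_
    rintro _ ⟨v, hv, rfl⟩
    simp only [SetLike.mem_coe, Ideal.mem_comap]
    rw [← Polynomial.aeval_algHom_apply]
    have e1 : Pmap K c ε (X v) = X (v.1, ε v.2) := by simp [Pmap]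
    rw [e1]
    exact gen_mem (GG i0 g n) (h v hv)
  exact this hp

/-- pushing forward vectors -/
noncomputable def push {m n : ℕ} (ε : Fin m → Fin n) :
    (Fin m → Pn K c m) →ₛₗ[(Pmap K c ε : Pn K c m →+* Pn K c n)] (Fin n → Pn K c n) where
  toFun v := ∑ i, Pi.single (ε i) (Pmap K c ε (v i))
  map_add' v w := by simp [Pi.single_add, Finset.sum_add_distrib]
  map_smul' p v := by
    simp only [Pi.smul_apply, smul_eq_mul, map_mul, RingHom.coe_coe, Finset.smul_sum]
    refine Finset.sum_congr rfl fun i _ => ?_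
    rw [← smul_eq_mul, Pi.single_smul]

theorem push_apply {m n : ℕ} (ε : Fin m → Fin n) (v : Fin m → Pn K c m) :
    push ε v = ∑ i, Pi.single (ε i) (Pmap K c ε (v i)) := rfl

theorem row_single {n : ℕ} (B : Fin n → Fin n → Pn K c n) (i j : Fin n) (p : Pn K c n) :
    row B i (Pi.single j p) = B i j * p := by
  rw [row_apply, Finset.sum_eq_single j]
  · simp
  · intro k _ hk; simp [hk]
  · simp

theorem push_mem {m n : ℕ} (ε : Fin m → Fin n) (hε : Function.Injective ε)
    (Bm : Fin m → Fin m → Pn K c m) (Bn : Fin n → Fin n → Pn K c n)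
    (hB : ∀ i j, Bn (ε i) (ε j) = Pmap K c ε (Bm i j)) :
    Rel i0 g Bm ≤ (Rel i0 g Bn).comap (push ε) := by
  rintro v ⟨h1, h2⟩
  refine ⟨fun j => ?_, fun i => ?_⟩
  · rw [push_apply, Finset.sum_apply]
    refine Submodule.sum_mem _ fun k _ => ?_
    by_cases hk : j = ε k
    · subst hk
      rw [Pi.single_eq_same]
      exact Pmap_IS i0 g ε _ _ (fun _ _ => Finset.mem_univ _) _ (h1 k)
    · rw [Pi.single_eq_of_ne hk]; exact zero_mem _
  · rw [push_apply, map_sum]
    simp only [row_single]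
    by_cases hi : ∃ i', ε i' = i
    · obtain ⟨i', rfl⟩ := hi
      have : ∑ k, Bn (ε i') (ε k) * Pmap K c ε (v k) = Pmap K c ε (row Bm i' v) := by
        rw [row_apply, map_sum]
        simp only [hB, map_mul]
      rw [this]
      refine Pmap_IS i0 g ε _ _ ?_ _ (h2 i')
      rintro ⟨a, b⟩ hv
      simp only [Finset.mem_erase, ne_eq, Prod.mk.injEq, Finset.mem_univ, and_true] at hv ⊢
      rintro ⟨h3, h4⟩
      exact hv ⟨h3, hε h4⟩
    · refine Submodule.sum_mem _ fun k _ => Ideal.mul_mem_left _ _ ?_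
      refine Pmap_IS i0 g ε _ _ ?_ _ (h1 k)
      rintro ⟨a, b⟩ _
      simp only [Finset.mem_erase, ne_eq, Prod.mk.injEq, Finset.mem_univ, and_true]
      rintro ⟨_, h4⟩
      exact hi ⟨b, h4⟩

theorem push_id {n : ℕ} (v : Fin n → Pn K c n) : push id v = v := by
  rw [push_apply]
  have : ∀ p : Pn K c n, Pmap K c id p = p := fun p => by
    have : (fun v : Fin c × Fin n => (v.1, id v.2)) = id := rfl
    simp only [Pmap, this, rename_id, AlgHom.id_apply]
  simp only [this, id]
  exact Finset.univ_sum_single v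

theorem Pmap_comp {l m n : ℕ} (ε : Fin l → Fin m) (η : Fin m → Fin n) (p : Pn K c l) :
    Pmap K c (η ∘ ε) p = Pmap K c η (Pmap K c ε p) := by
  simp only [Pmap, rename_rename]
  rfl

theorem push_single {m n : ℕ} (ε : Fin m → Fin n) (i : Fin m) (p : Pn K c m) :
    push ε (Pi.single i p) = Pi.single (ε i) (Pmap K c ε p) := by
  rw [push_apply, Finset.sum_eq_single i]
  · simp
  · intro k _ hk; simp [hk]
  · simp

theorem push_comp {l m n : ℕ} (ε : Fin l → Fin m) (η : Fin m → Fin n) (v : Fin l → Pn K c l) :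
    push (η ∘ ε) v = push η (push ε v) := by
  rw [push_apply ε, map_sum, push_apply]
  refine Finset.sum_congr rfl fun i _ => ?_
  rw [push_single, Pmap_comp]; rfl

/-- the induced map on the quotients -/
noncomputable def qmap {m n : ℕ} (ε : Fin m → Fin n) (hε : Function.Injective ε)
    (Bm : Fin m → Fin m → Pn K c m) (Bn : Fin n → Fin n → Pn K c n)
    (hB : ∀ i j, Bn (ε i) (ε j) = Pmap K c ε (Bm i j)) :
    ((Fin m → Pn K c m) ⧸ Rel i0 g Bm) →ₗ[K] ((Fin n → Pn K c n) ⧸ Rel i0 g Bn) where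
  toFun := Submodule.mapQ _ _ (push ε) (push_mem i0 g ε hε Bm Bn hB)
  map_add' x y := map_add _ x y
  map_smul' k x := by
    rw [← algebraMap_smul (Pn K c m) k x, LinearMap.map_smulₛₗ, RingHom.id_apply,
      ← algebraMap_smul (Pn K c n) k]
    congr 1
    exact (Pmap K c ε).commutes k

theorem qmap_mk {m n : ℕ} (ε : Fin m → Fin n) (hε : Function.Injective ε)
    (Bm : Fin m → Fin m → Pn K c m) (Bn : Fin n → Fin n → Pn K c n)
    (hB : ∀ i j, Bn (ε i) (ε j) = Pmap K c ε (Bm i j)) (v : Fin m → Pn K c m) :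
    qmap i0 g ε hε Bm Bn hB (Submodule.Quotient.mk v) = Submodule.Quotient.mk (push ε v) := rfl

/-- the module attached to a natural family of matrices -/
noncomputable def mkMod (Mor : ∀ m n : ℕ, (Fin m → Fin n) → Prop)
    (hinj : ∀ m n ε, Mor m n ε → Function.Injective ε) (B : ∀ n, Fin n → Fin n → Pn K c n)
    (hB : ∀ m n ε, Mor m n ε → ∀ i j, B n (ε i) (ε j) = Pmap K c ε (B m i j)) :
    PMod Mor K c where
  obj n := (Fin n → Pn K c n) ⧸ Rel i0 g (B n)
  map ε h := qmap i0 g ε (hinj _ _ ε h) _ _ (hB _ _ ε h)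
  map_id n h x := by
    obtain ⟨v, rfl⟩ := Submodule.Quotient.mk_surjective _ x
    rw [qmap_mk, push_id]
  map_comp ε η hε hη h x := by
    obtain ⟨v, rfl⟩ := Submodule.Quotient.mk_surjective _ x
    rw [qmap_mk, qmap_mk, qmap_mk, push_comp]
  map_smul ε h p x := by
    obtain ⟨v, rfl⟩ := Submodule.Quotient.mk_surjective _ x
    rw [← Submodule.Quotient.mk_smul, qmap_mk, qmap_mk, LinearMap.map_smulₛₗ,
      Submodule.Quotient.mk_smul]
    rfl

theorem mkMod_FG (Mor : ∀ m n : ℕ, (Fin m → Fin n) → Prop)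
    (hinj : ∀ m n ε, Mor m n ε → Function.Injective ε) (B : ∀ n, Fin n → Fin n → Pn K c n)
    (hB : ∀ m n ε, Mor m n ε → ∀ i j, B n (ε i) (ε j) = Pmap K c ε (B m i j))
    (h1 : ∀ n (j : Fin n), Mor 1 n (fun _ => j)) : (mkMod i0 g Mor hinj B hB).FG := by
  refine ⟨{⟨1, Submodule.Quotient.mk (Pi.single 0 1)⟩}, Set.finite_singleton _, ?_⟩
  intro N hN hS n
  have h0 := hS _ rfl
  rw [eq_top_iff]
  intro x _
  obtain ⟨v, rfl⟩ := Submodule.Quotient.mk_surjective (Rel i0 g (B n)) x
  have hj : ∀ j : Fin n, (Submodule.Quotient.mk (Pi.single j 1) :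
      (Fin n → Pn K c n) ⧸ Rel i0 g (B n)) ∈ N n := by
    intro j
    have := hN 1 n (fun _ => j) (h1 n j) _ h0
    change qmap i0 g _ (hinj _ _ _ (h1 n j)) _ _ (hB _ _ _ (h1 n j))
      (Submodule.Quotient.mk (Pi.single 0 1)) ∈ N n at this
    rwa [qmap_mk, push_single, map_one] at this
  have hv : v = ∑ j, v j • (Pi.single j 1 : Fin n → Pn K c n) := by
    ext1 k
    simp [Finset.sum_apply, Pi.single_apply]
  have : (Submodule.Quotient.mk v : (Fin n → Pn K c n) ⧸ Rel i0 g (B n)) =
      ∑ j, v j • Submodule.Quotient.mk (Pi.single j 1) := by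
    conv_lhs => rw [hv]
    rw [← Submodule.mkQ_apply, map_sum]
    simp only [map_smul, Submodule.mkQ_apply]
  rw [this]
  exact Submodule.sum_mem _ fun j _ => Submodule.smul_mem _ _ (hj j)

section pd

variable {n : ℕ} (B : Fin n → Fin n → Pn K c n)

theorem corr (H1 : ∀ i, ∃ v, row B i v - 1 ∈ Ii i0 g i) (r : Fin n → Pn K c n)
    (hr : ∀ i, r i ∈ Itop i0 g n) :
    ∃ v : Fin n → Pn K c n, (∀ j, v j ∈ Itop i0 g n) ∧ ∀ i, row B i v - r i ∈ Ii i0 g i := by
  choose w hw using H1
  have : ∀ i, ∃ p : Pn K c n, r i - p * gx i0 g i ∈ Ii i0 g i := by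
    intro i
    have h := hr i
    rw [Itop_eq i0 g i] at h
    obtain ⟨a, ha, b, hb, hab⟩ := Submodule.mem_sup.1 h
    obtain ⟨p, rfl⟩ := Ideal.mem_span_singleton'.1 ha
    exact ⟨p, by rw [← hab]; simpa using hb⟩
  choose p hp using this
  refine ⟨∑ i, (p i * gx i0 g i) • w i, fun j => ?_, fun k => ?_⟩
  · rw [Finset.sum_apply]
    refine Submodule.sum_mem _ fun i _ => ?_
    exact Ideal.mul_mem_right _ _ (Ideal.mul_mem_left _ _ (gx_mem_top i0 g i))
  · rw [map_sum, ← Finset.add_sum_erase _ _ (Finset.mem_univ k)]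
    simp only [map_smul, smul_eq_mul]
    have e : p k * gx i0 g k * row B k (w k) +
        ∑ x ∈ Finset.univ.erase k, p x * gx i0 g x * row B k (w x) - r k =
        p k * gx i0 g k * (row B k (w k) - 1) +
        ∑ x ∈ Finset.univ.erase k, p x * gx i0 g x * row B k (w x) -
          (r k - p k * gx i0 g k) := by ring
    rw [e]
    refine sub_mem (add_mem (Ideal.mul_mem_left _ _ (hw k)) ?_) (hp k)
    refine Submodule.sum_mem _ fun i hi => ?_
    exact Ideal.mul_mem_right _ _ (Ideal.mul_mem_left _ _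
      (gx_mem_Ii i0 g (Finset.ne_of_mem_erase hi)))

/-- the map to the lines -/
noncomputable def Phi : ((Fin n → Pn K c n) ⧸ Rel i0 g B) →ₗ[Pn K c n]
    (∀ i : Fin n, Pn K c n ⧸ Ii i0 g i) :=
  Submodule.liftQ _ (LinearMap.pi fun i => (Ii i0 g i).mkQ.comp (row B i)) (by
    rintro v ⟨_, h2⟩
    ext1 i
    exact (Submodule.Quotient.mk_eq_zero _).2 (h2 i))

theorem Phi_mk (v : Fin n → Pn K c n) (i : Fin n) :
    Phi i0 g B (Submodule.Quotient.mk v) i = Submodule.Quotient.mk (row B i v) := rfl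

/-- the map to the points -/
noncomputable def Pit : ((Fin n → Pn K c n) ⧸ Rel i0 g B) →ₗ[Pn K c n]
    (Fin n → Pn K c n ⧸ Itop i0 g n) :=
  Submodule.liftQ _ (LinearMap.pi fun i => (Itop i0 g n).mkQ.comp (LinearMap.proj i)) (by
    rintro v ⟨h1, _⟩
    ext1 i
    exact (Submodule.Quotient.mk_eq_zero _).2 (h1 i))

theorem Pit_mk (v : Fin n → Pn K c n) (i : Fin n) :
    Pit i0 g B (Submodule.Quotient.mk v) i = Submodule.Quotient.mk (v i) := rfl

/-- the comparison map -/
noncomputable def Psi : ((Fin n → Pn K c n ⧸ Itop i0 g n) × (∀ i : Fin n, Pn K c n ⧸ Ii i0 g i))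
    →ₗ[Pn K c n] (Fin n → Pn K c n ⧸ Itop i0 g n) where
  toFun x := fun i => ∑ j, B i j • x.1 j - Submodule.factor (Ii_le i0 g i) (x.2 i)
  map_add' x y := by
    ext1 i
    simp only [Prod.fst_add, Pi.add_apply, smul_add, Finset.sum_add_distrib, Prod.snd_add, map_add]
    abel
  map_smul' p x := by
    ext1 i
    simp only [Prod.smul_fst, Pi.smul_apply, Prod.smul_snd, map_smul, RingHom.id_apply, smul_sub,
      Finset.smul_sum, smul_comm p]

theorem Psi_mk (v f : Fin n → Pn K c n) (i : Fin n) :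
    Psi i0 g B (fun j => Submodule.Quotient.mk (v j), fun j => Submodule.Quotient.mk (f j)) i =
      Submodule.Quotient.mk (row B i v - f i) := by
  change ∑ j, B i j • (Itop i0 g n).mkQ (v j) - (Itop i0 g n).mkQ (f i) =
    (Itop i0 g n).mkQ (row B i v - f i)
  rw [map_sub, row_apply, map_sum]
  simp only [← map_smul, smul_eq_mul]

theorem card_erase (i : Fin n) :
    ((Finset.univ : Finset (Fin c × Fin n)).erase (i0, i)).card + 1 = c * n := by
  rw [Finset.card_erase_add_one (Finset.mem_univ _)]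
  simp

theorem pd_lines (hg : g.Monic) : PD (Pn K c n) (∀ i : Fin n, Pn K c n ⧸ Ii i0 g i) (c * n) :=
  pd_pi _ _ fun i => by
    have := pd_IS (GG i0 g n) (GG_monic i0 g hg n) (Finset.univ.erase (i0, i))
    rwa [card_erase] at this

theorem pd_points (hg : g.Monic) :
    PD (Pn K c n) (Fin n → Pn K c n ⧸ Itop i0 g n) (c * n + 1) :=
  pd_pi (fun _ : Fin n => Pn K c n ⧸ Itop i0 g n) _ fun i => by
    have := pd_IS (GG i0 g n) (GG_monic i0 g hg n) Finset.univ
    rw [Finset.card_univ, Fintype.card_prod, Fintype.card_fin, Fintype.card_fin] at this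
    exact this

theorem pd_upper (hg : g.Monic) (H1 : ∀ i, ∃ v, row B i v - 1 ∈ Ii i0 g i) :
    PD (Pn K c n) ((Fin n → Pn K c n) ⧸ Rel i0 g B) (c * n + 1) := by
  refine pd_X1 ((Pit i0 g B).prod (Phi i0 g B)) (Psi i0 g B) ?_ ?_ ?_ _
    (pd_prod _ (pd_points i0 g hg) (pd_mono (by omega) (pd_lines i0 g hg)))
    (pd_mono (by omega) (pd_points i0 g hg))
  · rw [injective_iff_map_eq_zero]
    intro x hx
    obtain ⟨v, rfl⟩ := Submodule.Quotient.mk_surjective _ x
    rw [Submodule.Quotient.mk_eq_zero]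
    refine ⟨fun j => ?_, fun i => ?_⟩
    · exact (Submodule.Quotient.mk_eq_zero _).1 (congrFun (congrArg Prod.fst hx) j)
    · exact (Submodule.Quotient.mk_eq_zero _).1 (congrFun (congrArg Prod.snd hx) i)
  · intro y
    choose f hf using fun i => Submodule.Quotient.mk_surjective _ (y i)
    refine ⟨(fun j => Submodule.Quotient.mk ((0 : Fin n → Pn K c n) j),
      fun j => Submodule.Quotient.mk ((-f) j)), ?_⟩
    ext1 i
    rw [Psi_mk, ← hf]
    simp
  · rintro ⟨q, l⟩
    choose v hv using fun i => Submodule.Quotient.mk_surjective _ (q i)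
    choose f hf using fun i => Submodule.Quotient.mk_surjective _ (l i)
    obtain rfl : q = fun j => Submodule.Quotient.mk (v j) := funext fun j => (hv j).symm
    obtain rfl : l = fun j => Submodule.Quotient.mk (f j) := funext fun j => (hf j).symm
    constructor
    · intro h
      have h1 : ∀ i, row B i v - f i ∈ Itop i0 g n := fun i => by
        have := congrFun h i
        rw [Psi_mk] at this
        exact (Submodule.Quotient.mk_eq_zero _).1 this
      obtain ⟨w, hw1, hw2⟩ := corr i0 g B H1 _ h1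
      refine ⟨Submodule.Quotient.mk (v - w), Prod.ext ?_ ?_⟩
      · ext1 j
        change Submodule.Quotient.mk ((v - w) j) = Submodule.Quotient.mk (v j)
        rw [Submodule.Quotient.eq]
        simpa using hw1 j
      · ext1 i
        change Submodule.Quotient.mk (row B i (v - w)) = Submodule.Quotient.mk (f i)
        rw [Submodule.Quotient.eq, map_sub]
        have := neg_mem (hw2 i)
        convert this using 1
        ring
    · rintro ⟨x, hx⟩
      obtain ⟨w, rfl⟩ := Submodule.Quotient.mk_surjective _ x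
      rw [← hx]
      ext1 i
      have := Psi_mk i0 g B w (fun j => row B j w) i
      rw [sub_self] at this
      exact this

theorem pd_unit (hg : g.Monic) (H1 : ∀ i, ∃ v, row B i v - 1 ∈ Ii i0 g i)
    (H2a : ∀ v, (∀ i, row B i v ∈ Itop i0 g n) → ∀ j, v j ∈ Itop i0 g n)
    (H2b : ∀ r : Fin n → Pn K c n, ∃ v, ∀ i, row B i v - r i ∈ Itop i0 g n) :
    PD (Pn K c n) ((Fin n → Pn K c n) ⧸ Rel i0 g B) (c * n) := by
  refine pd_equiv (LinearEquiv.ofBijective (Phi i0 g B) ⟨?_, ?_⟩).symm _ (pd_lines i0 g hg)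
  · rw [injective_iff_map_eq_zero]
    intro x hx
    obtain ⟨v, rfl⟩ := Submodule.Quotient.mk_surjective _ x
    rw [Submodule.Quotient.mk_eq_zero]
    have h2 : ∀ i, row B i v ∈ Ii i0 g i := fun i =>
      (Submodule.Quotient.mk_eq_zero _).1 (congrFun hx i)
    exact ⟨H2a v fun i => Ii_le i0 g i (h2 i), h2⟩
  · intro l
    choose f hf using fun i => Submodule.Quotient.mk_surjective _ (l i)
    obtain ⟨v, hv⟩ := H2b f
    obtain ⟨w, _, hw2⟩ := corr i0 g B H1 _ hv
    refine ⟨Submodule.Quotient.mk (v - w), ?_⟩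
    ext1 i
    rw [Phi_mk, ← hf, Submodule.Quotient.eq, map_sub]
    have := neg_mem (hw2 i)
    convert this using 1
    ring

/-- the point with coordinates `a` in row `i0` and `0` in the other rows -/
def pt (a : Fin n → K) : Fin c × Fin n → K := fun v => if v.1 = i0 then a v.2 else 0

theorem eval_top (a : Fin n → K) (ha : ∀ i, g.eval (a i) = 0) (p : Pn K c n)
    (hp : p ∈ Itop i0 g n) : aeval (pt i0 a) p = 0 := by
  have : Itop i0 g n ≤ RingHom.ker (aeval (R := K) (pt i0 a)) := by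
    refine Ideal.span_le.2 ?_
    rintro _ ⟨v, _, rfl⟩
    simp only [SetLike.mem_coe, RingHom.mem_ker]
    rw [← Polynomial.aeval_algHom_apply, aeval_X]
    unfold GG pt
    split_ifs
    · rw [Polynomial.coe_aeval_eq_eval, ha]
    · simp
  exact this hp

theorem pd_lower (hg : g.Monic) (H1 : ∀ i, ∃ v, row B i v - 1 ∈ Ii i0 g i) (i : Fin n)
    (a : K) (ha : g.eval a = 0) :
    ¬ PD (Pn K c n) ((Fin n → Pn K c n) ⧸ Rel i0 g B) (c * n - 1) := by
  obtain ⟨w, hw⟩ := H1 i
  have h := not_pd_IS (GG i0 g n) (GG_monic i0 g hg n) (Finset.univ.erase (i0, i))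
    ((Fin n → Pn K c n) ⧸ Rel i0 g B) (Submodule.Quotient.mk (gx i0 g i • w)) ?_ ?_
  · have e := card_erase i0 i
    rwa [show c * n - 1 = ((Finset.univ : Finset (Fin c × Fin n)).erase (i0, i)).card by omega]
  · intro h0
    have h1 := ((Submodule.Quotient.mk_eq_zero _).1 h0).2 i
    rw [map_smul, smul_eq_mul] at h1
    have h2 : gx i0 g i * 1 ∈ Ii i0 g i := by
      have := sub_mem h1 (Ideal.mul_mem_left _ (gx i0 g i) hw)
      convert this using 1
      ring
    have h3 := reg (GG i0 g n) (GG_monic i0 g hg n) (Finset.univ.erase (i0, i)) (i0, i)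
      (Finset.notMem_erase _ _) 1 (by rw [GG_i0]; exact h2)
    have h4 := eval_top i0 g (fun _ : Fin n => a) (fun _ => ha) 1 (Ii_le i0 g i h3)
    simp at h4
  · intro v hv
    rw [← Submodule.Quotient.mk_smul, Submodule.Quotient.mk_eq_zero]
    refine ⟨fun j => ?_, fun k => ?_⟩
    · exact Ideal.mul_mem_right _ _ (gen_mem _ (Finset.mem_univ v))
    · rw [map_smul, map_smul, smul_eq_mul, smul_eq_mul]
      by_cases hk : i = k
      · subst hk
        exact Ideal.mul_mem_right _ _ (gen_mem _ hv)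
      · exact Ideal.mul_mem_left _ _ (Ideal.mul_mem_right _ _ (gx_mem_Ii i0 g hk))

theorem sub_eval_mem {σ : Type} (x : σ → K) (J : Ideal (MvPolynomial σ K))
    (hJ : ∀ v, X v - C (x v) ∈ J) (p : MvPolynomial σ K) : p - C (aeval x p) ∈ J := by
  induction p using MvPolynomial.induction_on with
  | C a => simp
  | add p q hp hq =>
    have := add_mem hp hq
    convert this using 1
    simp only [map_add]; ring
  | mul_X p j hp =>
    have := add_mem (Ideal.mul_mem_right (X j) _ hp) (Ideal.mul_mem_left _ (C (aeval x p)) (hJ j))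
    convert this using 1
    simp only [map_mul, aeval_X]; ring

theorem pd_sing (H1 : ∀ i, ∃ v, row B i v - 1 ∈ Ii i0 g i) (a : Fin n → K)
    (q : Fin n → Polynomial K) (hq : ∀ i, g = (Polynomial.X - Polynomial.C (a i)) * q i)
    (hq0 : ∀ i, (q i).eval (a i) ≠ 0) (β : Fin n → Pn K c n) (j0 : Fin n)
    (hβ0 : aeval (pt i0 a) (β j0) ≠ 0) (hβ : ∀ i, aeval (pt i0 a) (row B i β) = 0) :
    ¬ PD (Pn K c n) ((Fin n → Pn K c n) ⧸ Rel i0 g B) (c * n) := by
  let α : Pn K c n := ∏ i, Polynomial.aeval (X (i0, i) : Pn K c n) (q i)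
  have hα : ∀ v, (X v - C (pt i0 a v)) * α ∈ Itop i0 g n := by
    rintro ⟨r, i⟩
    by_cases hr : r = i0
    · subst hr
      have e : (X (r, i) - C (pt r a (r, i))) * α = gx r g i *
          ∏ k ∈ Finset.univ.erase i, Polynomial.aeval (X (r, k) : Pn K c n) (q k) := by
        simp only [α]
        rw [← Finset.mul_prod_erase _ _ (Finset.mem_univ i), ← mul_assoc, gx]
        congr 1
        conv_rhs => rw [hq i]
        simp [pt]
      rw [e]
      exact Ideal.mul_mem_right _ _ (gx_mem_top r g i)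
    · refine Ideal.mul_mem_right _ _ ?_
      have := gen_mem (GG i0 g n) (Finset.mem_univ (r, i))
      unfold Itop
      simpa [GG, pt, hr] using this
  have hα2 : ∀ p : Pn K c n, aeval (pt i0 a) p = 0 → p * α ∈ Itop i0 g n := by
    intro p hp
    have := sub_eval_mem (pt i0 a) ((Itop i0 g n).colon {α})
      (fun v => by simpa [Submodule.mem_colon_singleton] using hα v) p
    rw [hp, map_zero, sub_zero] at this
    simpa [Submodule.mem_colon_singleton] using this
  obtain ⟨r, hr1, hr2⟩ := corr i0 g B H1 (fun i => row B i (α • β)) (fun i => by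
    rw [map_smul, smul_eq_mul, mul_comm]; exact hα2 _ (hβ i))
  have h := not_pd_IS (fun v => Polynomial.X - Polynomial.C (pt i0 a v))
    (fun v => Polynomial.monic_X_sub_C _) Finset.univ
    ((Fin n → Pn K c n) ⧸ Rel i0 g B) (Submodule.Quotient.mk (α • β - r)) ?_ ?_
  · simpa using h
  · intro h0
    have h1 := ((Submodule.Quotient.mk_eq_zero _).1 h0).1 j0
    have h2 : α * β j0 ∈ Itop i0 g n := by
      have := add_mem h1 (hr1 j0)
      simpa using this
    have h3 := eval_top i0 g a (fun i => by rw [hq i]; simp) _ h2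
    rw [map_mul] at h3
    refine mul_ne_zero ?_ hβ0 h3
    simp only [α, map_prod]
    refine Finset.prod_ne_zero_iff.2 fun i _ => ?_
    rw [← Polynomial.aeval_algHom_apply, aeval_X, Polynomial.coe_aeval_eq_eval]
    simpa [pt] using hq0 i
  · intro v _
    rw [← Submodule.Quotient.mk_smul, Submodule.Quotient.mk_eq_zero]
    have e : Polynomial.aeval (X v : Pn K c n) (Polynomial.X - Polynomial.C (pt i0 a v)) =
        X v - C (pt i0 a v) := by simp
    rw [e]
    refine ⟨fun j => ?_, fun k => ?_⟩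
    · have := sub_mem (Ideal.mul_mem_right (β j) _ (hα v))
        (Ideal.mul_mem_left _ (X v - C (pt i0 a v)) (hr1 j))
      convert this using 1
      simp only [Pi.smul_apply, Pi.sub_apply, smul_eq_mul]; ring
    · rw [map_smul, map_sub, smul_eq_mul]
      refine Ideal.mul_mem_left _ _ ?_
      have := neg_mem (hr2 k)
      convert this using 1
      ring

end pd

theorem pd_eq {R : Type u} [CommRing R] (M : Type u) [AddCommGroup M] [Module R M] (k : ℕ)
    (h1 : PD R M (k + 1)) (h2 : ¬ PD R M k) :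
    CategoryTheory.projectiveDimension (ModuleCat.of R M) = k :=
  le_antisymm ((CategoryTheory.projectiveDimension_le_iff _ k).2 h1)
    ((CategoryTheory.projectiveDimension_ge_iff _ k).2 h2)

end Pool.Agent.H750Z.Ex
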