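import Pool.Agent.H750Z.Defs

set_option autoImplicit false

namespace Pool.Agent.H750Z

universe u

/-- A graded module over `P`: each `M_n` is a `ℤ`-graded module over the standard graded ring `P_n`
and the maps `M(ε)` preserve degrees. -/
structure GrPMod (Mor : ∀ m n : ℕ, (Fin m → Fin n) → Prop) (K : Type u) [Field K] (c : ℕ)
    extends PMod Mor K c where
  /-- the homogeneous components of `M_n` -/
  grade : ∀ n, ℤ → Submodule K (obj n)
  internal : ∀ n, DirectSum.IsInternal (grade n)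
  smul_mem : ∀ (n d : ℕ) (p : Pn K c n) (j : ℤ) (x : obj n), p.IsHomogeneous d → x ∈ grade n j →
    p • x ∈ grade n (j + d)
  map_mem : ∀ {m n : ℕ} (ε : Fin m → Fin n) (h : Mor m n ε) (j : ℤ) (x : obj m),
    x ∈ grade m j → map ε h x ∈ grade n j

variable {Mor : ∀ m n : ℕ, (Fin m → Fin n) → Prop} {K : Type u} [Field K] {c : ℕ}

/-- `M` is finitely generated: there are finitely many homogeneous `q_k ∈ M_{d_k}` such that each
`M_n` is generated over `P_n` by all the `M(ε)(q_k)`. -/
def GrPMod.FG (M : GrPMod Mor K c) : Prop :=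
  ∃ (r : ℕ) (d : Fin r → ℕ) (q : ∀ k, M.obj (d k)), (∀ k, ∃ j, q k ∈ M.grade (d k) j) ∧
    ∀ n, Submodule.span (Pn K c n)
      {x | ∃ (k : Fin r) (ε : Fin (d k) → Fin n) (h : Mor (d k) n ε), x = M.map ε h (q k)} = ⊤

/-- The differential of the Koszul complex of `M_n` on all the variables of `P_n` (ordered
lexicographically). A chain `z` is the sum of the `e_A ⊗ z A` over the sets `A` of variables, and
`e_A ⊗ m ↦ ∑_{a ∈ A} (-1)^{#{b ∈ A : b < a}} e_{A \ {a}} ⊗ x_a m`. -/
noncomputable def GrPMod.koszulD (M : GrPMod Mor K c) (n : ℕ)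
    (z : Finset (Fin c × Fin n) → M.obj n) : Finset (Fin c × Fin n) → M.obj n :=
  fun B => ∑ a ∈ Finset.univ \ B,
    ((-1 : K) ^ (B.filter (fun b => toLex b < toLex a)).card) •
      ((MvPolynomial.X a : Pn K c n) • z (insert a B))

/-- The Koszul chains of homological degree `i` and internal degree `j`: sums of `e_A ⊗ m` with
`|A| = i` and `m` homogeneous of degree `j - i`. -/
def GrPMod.IsChain (M : GrPMod Mor K c) (n i : ℕ) (j : ℤ)
    (z : Finset (Fin c × Fin n) → M.obj n) : Prop :=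
  ∀ A, (A.card = i → z A ∈ M.grade n (j - i)) ∧ (A.card ≠ i → z A = 0)

/-- The graded Betti number `β_{i,j}(M_n) = dim_K Tor_i^{P_n}(K, M_n)_j` is not zero: the degree `j`
part of the `i`-th Koszul homology is not zero, i.e. some cycle is not a boundary. -/
def GrPMod.BettiNeZero (M : GrPMod Mor K c) (n i : ℕ) (j : ℤ) : Prop :=
  ∃ z, M.IsChain n i j z ∧ M.koszulD n z = 0 ∧
    ¬ ∃ y, M.IsChain n (i + 1) j y ∧ M.koszulD n y = z

/-- `reg M_n = r`: `r` is the maximum of `j - i` over all `i`, `j` with `β_{i,j}(M_n) ≠ 0`. -/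
def GrPMod.HasReg (M : GrPMod Mor K c) (n : ℕ) (r : ℤ) : Prop :=
  IsGreatest {s : ℤ | ∃ (i : ℕ) (j : ℤ), M.BettiNeZero n i j ∧ s = j - i} r

end Pool.Agent.H750Z
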