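import Pool.Agent.H750Z.Ex

set_option autoImplicit false

namespace Pool.Agent.H750Z.PdMain

open MvPolynomial Hom Ex Filter

universe u

variable {K : Type u} [Field K] {c : ℕ} (i0 : Fin c) (g w : Polynomial K)

/-- the matrix `1 + (w (x_j))_{i,j}` -/
noncomputable def BB (n : ℕ) : Fin n → Fin n → Pn K c n :=
  fun i j => (if i = j then 1 else 0) + gx i0 w j

theorem Pmap_gx {m n : ℕ} (ε : Fin m → Fin n) (j : Fin m) :
    Pmap K c ε (gx i0 w j) = gx i0 w (ε j) := by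
  unfold gx
  rw [← Polynomial.aeval_algHom_apply]
  simp [Pmap]

theorem BB_nat {m n : ℕ} (ε : Fin m → Fin n) (hε : Function.Injective ε) (i j : Fin m) :
    BB i0 w n (ε i) (ε j) = Pmap K c ε (BB i0 w m i j) := by
  unfold BB
  rw [map_add, Pmap_gx]
  by_cases h : i = j
  · simp [h]
  · simp [h, hε.ne h]

theorem row_BB {n : ℕ} (i : Fin n) (v : Fin n → Pn K c n) :
    row (BB i0 w n) i v = v i + ∑ j, gx i0 w j * v j := by
  rw [row_apply]
  simp [BB, add_mul, Finset.sum_add_distrib]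

theorem H1_BB (hw : g ∣ w * w - 1) {n : ℕ} (hn : 2 ≤ n) (i : Fin n) :
    ∃ v, row (BB i0 w n) i v - 1 ∈ Ii i0 g i := by
  obtain ⟨k, hk⟩ : ∃ k : Fin n, k ≠ i := by
    have : Nontrivial (Fin n) := Fin.nontrivial_iff_two_le.2 hn
    exact exists_ne i
  refine ⟨Pi.single k (gx i0 w k), ?_⟩
  rw [row_single]
  obtain ⟨s, hs⟩ := hw
  have : BB i0 w n i k * gx i0 w k - 1 = gx i0 g k * gx i0 s k := by
    have := congrArg (Polynomial.aeval (X (i0, k) : Pn K c n)) hs
    simp only [map_sub, map_mul, map_one] at this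
    simp only [BB, if_neg hk.symm, zero_add]
    exact this
  rw [this]
  exact Ideal.mul_mem_right _ _ (gx_mem_Ii i0 g hk)

theorem pd_unit_BB (hg : g.Monic) (hw : g ∣ w * w - 1) {n : ℕ} (hn : 2 ≤ n) (h' : Pn K c n)
    (hh : h' * (1 + ∑ j, gx i0 w j) - 1 ∈ Itop i0 g n) :
    PD (Pn K c n) ((Fin n → Pn K c n) ⧸ Rel i0 g (BB i0 w n)) (c * n) := by
  refine pd_unit i0 g _ hg (H1_BB i0 g w hw hn) ?_ ?_
  · intro v hv
    simp only [row_BB] at hv
    have h1 : (1 + ∑ j, gx i0 w j) * ∑ j, gx i0 w j * v j ∈ Itop i0 g n := by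
      have := Submodule.sum_mem (Itop i0 g n)
        (fun i (_ : i ∈ Finset.univ) => Ideal.mul_mem_left _ (gx i0 w i) (hv i))
      convert this using 1
      simp only [mul_add, Finset.sum_add_distrib, ← Finset.sum_mul]
      ring
    have h2 : ∑ j, gx i0 w j * v j ∈ Itop i0 g n := by
      have := sub_mem (Ideal.mul_mem_left _ h' h1)
        (Ideal.mul_mem_right (∑ j, gx i0 w j * v j) _ hh)
      convert this using 1
      ring
    intro j
    simpa using sub_mem (hv j) h2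
  · intro r
    refine ⟨fun i => r i - h' * ∑ j, gx i0 w j * r j, fun i => ?_⟩
    rw [row_BB]
    have := neg_mem (Ideal.mul_mem_right (∑ j, gx i0 w j * r j) _ hh)
    convert this using 1
    simp only [mul_sub, Finset.sum_sub_distrib, ← Finset.sum_mul]
    ring

theorem pd_sing_BB (hw : g ∣ w * w - 1) {n : ℕ} (hn : 2 ≤ n) (a : Fin n → K)
    (q : Fin n → Polynomial K) (hq : ∀ i, g = (Polynomial.X - Polynomial.C (a i)) * q i)
    (hq0 : ∀ i, (q i).eval (a i) ≠ 0) (ha : 1 + ∑ j, w.eval (a j) = 0) :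
    ¬ PD (Pn K c n) ((Fin n → Pn K c n) ⧸ Rel i0 g (BB i0 w n)) (c * n) := by
  refine pd_sing i0 g _ (H1_BB i0 g w hw hn) a q hq hq0 (fun _ => 1) ⟨0, by omega⟩ (by simp) ?_
  intro i
  rw [row_BB, map_add, map_one, map_sum, ← ha]
  congr 1
  refine Finset.sum_congr rfl fun j _ => ?_
  unfold gx
  rw [mul_one, ← Polynomial.aeval_algHom_apply, aeval_X, Polynomial.coe_aeval_eq_eval]
  simp [pt]

theorem main_gen (Mor : ∀ m n : ℕ, (Fin m → Fin n) → Prop)
    (hinj : ∀ m n ε, Mor m n ε → Function.Injective ε)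
    (h1 : ∀ n (j : Fin n), Mor 1 n (fun _ => j)) (hg : g.Monic) (hw : g ∣ w * w - 1)
    (a0 : K) (ha0 : g.eval a0 = 0) (q : ℕ)
    (hunit : ∀ n, ¬ q ∣ n + 1 → ∃ h' : Pn K c n, h' * (1 + ∑ j, gx i0 w j) - 1 ∈ Itop i0 g n)
    (hsing : ∀ n, q ∣ n + 1 → ∃ (a : Fin n → K) (s : Fin n → Polynomial K),
      (∀ i, g = (Polynomial.X - Polynomial.C (a i)) * s i) ∧ (∀ i, (s i).eval (a i) ≠ 0) ∧
        1 + ∑ j, w.eval (a j) = 0) :
    ∃ M : PMod Mor K c, M.FG ∧ ∀ n, 2 ≤ n →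
      M.pd n = ((if q ∣ n + 1 then c * n else c * n - 1 : ℕ) : WithBot ℕ∞) := by
  refine ⟨mkMod i0 g Mor hinj (BB i0 w) (fun m n ε h => BB_nat i0 w ε (hinj m n ε h)),
    mkMod_FG i0 g Mor hinj _ _ h1, fun n hn => ?_⟩
  split_ifs with hq
  · obtain ⟨a, s, h2, h3, h4⟩ := hsing n hq
    exact pd_eq _ _ (pd_upper i0 g _ hg (H1_BB i0 g w hw hn))
      (pd_sing_BB i0 g w hw hn a s h2 h3 h4)
  · obtain ⟨h', hh⟩ := hunit n hq
    have hc := card_erase i0 (⟨0, by omega⟩ : Fin n)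
    refine pd_eq _ _ ?_ (pd_lower i0 g _ hg (H1_BB i0 g w hw hn) ⟨0, by omega⟩ a0 ha0)
    rw [show c * n - 1 + 1 = c * n by omega]
    exact pd_unit_BB i0 g w hg hw hn h' hh

theorem unit_zero [CharZero K] (n : ℕ) (hn : ¬ 2 ∣ n + 1) :
    ∃ h' : Pn K c n, h' * (1 + ∑ j, gx i0 Polynomial.X j) - 1 ∈
      Itop i0 (Polynomial.X ^ 2 - 1) n := by
  by_contra hcon
  have hne : Itop i0 (Polynomial.X ^ 2 - 1 : Polynomial K) n ⊔
      Ideal.span {1 + ∑ j, gx i0 Polynomial.X j} ≠ ⊤ := by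
    intro htop
    apply hcon
    rw [Ideal.eq_top_iff_one] at htop
    obtain ⟨a, ha, b, hb, hab⟩ := Submodule.mem_sup.1 htop
    obtain ⟨h', rfl⟩ := Ideal.mem_span_singleton'.1 hb
    refine ⟨h', ?_⟩
    have := neg_mem ha
    convert this using 1
    linear_combination hab
  obtain ⟨m, hm, hle⟩ := Ideal.exists_le_maximal _ hne
  have hs : ∀ j : Fin n, ∃ s : ℤ, (s = 1 ∨ s = -1) ∧
      Ideal.Quotient.mk m (X (i0, j)) = (s : Pn K c n ⧸ m) := by
    intro j
    have h1 : gx i0 (Polynomial.X ^ 2 - 1 : Polynomial K) j ∈ m :=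
      hle (Ideal.mem_sup_left (gx_mem_top i0 _ j))
    have h2 : gx i0 (Polynomial.X ^ 2 - 1 : Polynomial K) j =
        (X (i0, j) - 1) * (X (i0, j) + 1) := by
      simp only [gx, map_sub, map_pow, Polynomial.aeval_X, map_one]; ring
    rw [h2] at h1
    rcases hm.isPrime.mem_or_mem h1 with h | h
    · refine ⟨1, Or.inl rfl, ?_⟩
      have := Ideal.Quotient.eq_zero_iff_mem.2 h
      rw [map_sub, map_one, sub_eq_zero] at this
      simpa using this
    · refine ⟨-1, Or.inr rfl, ?_⟩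
      have := Ideal.Quotient.eq_zero_iff_mem.2 h
      rw [map_add, map_one, add_eq_zero_iff_eq_neg] at this
      simpa using this
  choose s hs1 hs2 using hs
  have h3 : (1 + ∑ j, gx i0 Polynomial.X j : Pn K c n) ∈ m :=
    hle (Ideal.mem_sup_right (Ideal.mem_span_singleton_self _))
  have h4 := Ideal.Quotient.eq_zero_iff_mem.2 h3
  simp only [gx, Polynomial.aeval_X, map_add, map_one, map_sum, hs2] at h4
  have : Nontrivial (Pn K c n ⧸ m) := Ideal.Quotient.nontrivial_iff.2 hm.ne_top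
  have : CharZero (Pn K c n ⧸ m) := algebraRat.charZero _
  have h5 : (1 + ∑ j, s j : ℤ) = 0 := by exact_mod_cast h4
  have h6 : ((1 + ∑ j, s j : ℤ) : ZMod 2) = ((n + 1 : ℕ) : ZMod 2) := by
    have : ∀ j, ((s j : ℤ) : ZMod 2) = 1 := fun j => by
      rcases hs1 j with h | h <;> rw [h] <;> decide
    push_cast
    simp only [this]
    simp [add_comm]
  rw [h5, Int.cast_zero, eq_comm, ZMod.natCast_eq_zero_iff] at h6
  exact hn h6

theorem sum_alt (k : ℕ) : ∑ j ∈ Finset.range (2 * k + 1), (-1 : K) ^ (j + 1) = -1 := by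
  induction k with
  | zero => simp
  | succ k ih =>
    rw [show 2 * (k + 1) + 1 = 2 * k + 1 + 1 + 1 by ring, Finset.sum_range_succ,
      Finset.sum_range_succ, ih]
    ring

theorem main (Mor : ∀ m n : ℕ, (Fin m → Fin n) → Prop)
    (hinj : ∀ m n ε, Mor m n ε → Function.Injective ε)
    (h1 : ∀ n (j : Fin n), Mor 1 n (fun _ => j)) (hc : 1 ≤ c) :
    ∃ M : PMod Mor K c, M.FG ∧ ∃ q : ℕ, 2 ≤ q ∧ ∀ n, 2 ≤ n →
      M.pd n = ((if q ∣ n + 1 then c * n else c * n - 1 : ℕ) : WithBot ℕ∞) := by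
  let i0 : Fin c := ⟨0, by omega⟩
  obtain ⟨p, hp⟩ := CharP.exists K
  rcases CharP.char_is_prime_or_zero K p with hpp | hp0
  · obtain ⟨M, hM1, hM2⟩ := main_gen i0 (Polynomial.X : Polynomial K) 1 Mor hinj h1
      Polynomial.monic_X (by simp) 0 (by simp) p (fun n hn => by
        have hne : ((n + 1 : ℕ) : K) ≠ 0 := fun h => hn ((CharP.cast_eq_zero_iff K p _).1 h)
        refine ⟨C ((n + 1 : ℕ) : K)⁻¹, ?_⟩
        have : (1 + ∑ j : Fin n, gx i0 (1 : Polynomial K) j : Pn K c n) = C ((n + 1 : ℕ) : K) := by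
          simp [gx, add_comm]
        rw [this, ← map_mul, inv_mul_cancel₀ hne, map_one, sub_self]
        exact zero_mem _) (fun n hn => ⟨fun _ => 0, fun _ => 1, fun _ => by simp,
          fun _ => by simp, by
            have := (CharP.cast_eq_zero_iff K p _).2 hn
            simpa [add_comm] using this⟩)
    exact ⟨M, hM1, p, hpp.two_le, hM2⟩
  · subst hp0
    have : CharZero K := CharP.charP_to_charZero K
    obtain ⟨M, hM1, hM2⟩ := main_gen i0 (Polynomial.X ^ 2 - 1 : Polynomial K) Polynomial.X Mor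
      hinj h1 (Polynomial.monic_X_pow_sub_C 1 (by norm_num)) (by rw [sq]) 1 (by simp) 2
      (fun n hn => unit_zero i0 n hn) (fun n hn => by
        obtain ⟨k, rfl⟩ : ∃ k, n = 2 * k + 1 := ⟨n / 2, by omega⟩
        refine ⟨fun j => (-1) ^ (j.1 + 1),
          fun j => Polynomial.X + Polynomial.C ((-1) ^ (j.1 + 1)), fun j => ?_, fun j => ?_, ?_⟩
        · have : (Polynomial.C ((-1 : K) ^ (j.1 + 1))) ^ 2 = 1 := by
            rw [← map_pow, ← pow_mul, mul_comm, pow_mul]; simp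
          linear_combination this
        · simp only [Polynomial.eval_add, Polynomial.eval_X, Polynomial.eval_C, ← two_mul]
          exact mul_ne_zero two_ne_zero (pow_ne_zero _ (by simp))
        · simp only [Polynomial.eval_X]
          rw [Fin.sum_univ_eq_sum_range (fun j => (-1 : K) ^ (j + 1)), sum_alt]
          simp)
    exact ⟨M, hM1, 2, le_refl _, hM2⟩

theorem nonlinear (c q : ℕ) (hc : 1 ≤ c) (hq : 2 ≤ q) (d : ℕ → WithBot ℕ∞)
    (hd : ∀ n, 2 ≤ n → d n = ((if q ∣ n + 1 then c * n else c * n - 1 : ℕ) : WithBot ℕ∞)) :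
    ¬ ∃ A B : ℤ, ∀ᶠ n : ℕ in atTop, ∃ k : ℕ, d n = (k : WithBot ℕ∞) ∧ (k : ℤ) = A * n + B := by
  rintro ⟨A, B, h⟩
  obtain ⟨N, hN⟩ := eventually_atTop.1 h
  have key : ∀ n, N + 2 ≤ n →
      ((if q ∣ n + 1 then c * n else c * n - 1 : ℕ) : ℤ) = A * n + B := by
    intro n hn
    obtain ⟨k, hk1, hk2⟩ := hN n (by omega)
    rw [hd n (by omega)] at hk1
    have : (if q ∣ n + 1 then c * n else c * n - 1 : ℕ) = k := by exact_mod_cast hk1
    rw [this, hk2]
  obtain ⟨t, ht⟩ : ∃ t, q * (N + 3) = t + 1 := ⟨q * (N + 3) - 1, by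
    have : 0 < q * (N + 3) := by positivity
    omega⟩
  have ht2 : N + 2 ≤ t := by nlinarith
  have e1 := key t ht2
  have e2 := key (t + q) (by omega)
  have e3 := key (t + 1) (by omega)
  rw [if_pos ⟨N + 3, ht.symm⟩] at e1
  rw [if_pos ⟨N + 4, by rw [show t + q + 1 = t + 1 + q by ring, ← ht]; ring⟩] at e2
  rw [if_neg (by
    intro h
    rw [← ht] at h
    have := (Nat.dvd_add_right (Dvd.intro _ rfl)).1 h
    have := Nat.le_of_dvd one_pos this
    omega)] at e3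
  have h1 : 1 ≤ c * (t + 1) := Nat.mul_pos hc (Nat.succ_pos t)
  push_cast [Nat.cast_sub h1] at e1 e2 e3
  have hA : (A - c) * q = 0 := by linear_combination e1 - e2
  have hq0 : (q : ℤ) ≠ 0 := by omega
  have hA' : A = c := by
    rcases mul_eq_zero.1 hA with h | h
    · linarith
    · exact absurd h hq0
  subst hA'
  linarith

end Pool.Agent.H750Z.PdMain
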