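import Pool.Agent.H750Z.GDefs
import Pool.Agent.H750Z.Ex

set_option autoImplicit false

namespace Pool.Agent.H750Z.Reg

open MvPolynomial Hom Ex Filter

universe u

variable {K : Type u} [Field K] {c : ℕ}



variable (i0 : Fin c)

theorem IS_X {n : ℕ} (S : Finset (Fin c × Fin n)) :
    IS (GG i0 (Polynomial.X : Polynomial K) n) S =
      Ideal.span (X '' (S : Set (Fin c × Fin n)) : Set (Pn K c n)) := by
  unfold IS
  congr 2
  funext v
  simp [GG]

theorem mem_Itop {n : ℕ} (p : Pn K c n) :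
    p ∈ Itop i0 (Polynomial.X : Polynomial K) n ↔ coeff 0 p = 0 := by
  unfold Itop
  rw [IS_X, mem_ideal_span_X_image]
  constructor
  · intro h
    by_contra h0
    obtain ⟨i, _, hi⟩ := h 0 (mem_support_iff.2 h0)
    exact hi rfl
  · intro h m hm
    by_contra hcon
    push Not at hcon
    have : m = 0 := Finsupp.ext fun v => hcon v (by simp)
    rw [this, mem_support_iff] at hm
    exact hm h

theorem mem_Ii {n : ℕ} (i : Fin n) (p : Pn K c n) :
    p ∈ Ii i0 (Polynomial.X : Polynomial K) i ↔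
      ∀ d, coeff (Finsupp.single (i0, i) d) p = 0 := by
  unfold Ii
  rw [IS_X, mem_ideal_span_X_image]
  constructor
  · intro h d
    by_contra h0
    obtain ⟨v, hv, hi⟩ := h _ (mem_support_iff.2 h0)
    have hv' : v ≠ (i0, i) := by simpa using hv
    exact hi (Finsupp.single_eq_of_ne hv')
  · intro h m hm
    by_contra hcon
    push Not at hcon
    have : m = Finsupp.single (i0, i) (m (i0, i)) := Finsupp.ext fun v => by
      by_cases hv : v = (i0, i)
      · subst hv; simp
      · rw [Finsupp.single_eq_of_ne hv]; exact hcon v (by simpa using hv)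
    rw [this, mem_support_iff] at hm
    exact hm (h _)

/-- the constant matrix over the polynomial ring -/
noncomputable def CB {n : ℕ} (b : Matrix (Fin n) (Fin n) K) : Fin n → Fin n → Pn K c n :=
  fun i j => C (b i j)

/-- the module -/
abbrev MM {n : ℕ} (b : Matrix (Fin n) (Fin n) K) : Type u :=
  (Fin n → Pn K c n) ⧸ Rel i0 (Polynomial.X : Polynomial K) (CB b)

variable {n : ℕ} (b : Matrix (Fin n) (Fin n) K)

theorem coeff_row (i : Fin n) (v : Fin n → Pn K c n) (m : Fin c × Fin n →₀ ℕ) :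
    coeff m (row (CB b) i v) = ∑ j, b i j * coeff m (v j) := by
  rw [row_apply, coeff_sum]
  simp [CB]

/-- coordinates on the lines -/
noncomputable def lam (i : Fin n) (d : ℕ) : MM i0 b →ₗ[K] K :=
  (Submodule.liftQ ((Rel i0 (Polynomial.X : Polynomial K) (CB b)).restrictScalars K)
    ((lcoeff K (Finsupp.single (i0, i) d)).comp ((row (CB b) i).restrictScalars K))
    (fun _ hv => (mem_Ii i0 i _).1 (hv.2 i) d)).comp
    (Submodule.Quotient.restrictScalarsEquiv K _).symm.toLinearMap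

theorem lam_mk (i : Fin n) (d : ℕ) (v : Fin n → Pn K c n) :
    lam i0 b i d (Submodule.Quotient.mk v) =
      ∑ j, b i j * coeff (Finsupp.single (i0, i) d) (v j) := by
  rw [← coeff_row]; rfl

/-- coordinates in degree zero -/
noncomputable def mu (j : Fin n) : MM i0 b →ₗ[K] K :=
  (Submodule.liftQ ((Rel i0 (Polynomial.X : Polynomial K) (CB b)).restrictScalars K)
    ((lcoeff K 0).comp (LinearMap.proj j))
    (fun _ hv => (mem_Itop i0 _).1 (hv.1 j))).comp
    (Submodule.Quotient.restrictScalarsEquiv K _).symm.toLinearMap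

theorem mu_mk (j : Fin n) (v : Fin n → Pn K c n) :
    mu i0 b j (Submodule.Quotient.mk v) = coeff 0 (v j) := rfl

theorem MM_zero (x : MM i0 b) (h1 : ∀ j, mu i0 b j x = 0) (h2 : ∀ i d, lam i0 b i d x = 0) :
    x = 0 := by
  obtain ⟨v, rfl⟩ := Submodule.Quotient.mk_surjective _ x
  rw [Submodule.Quotient.mk_eq_zero]
  refine ⟨fun j => (mem_Itop i0 _).2 (h1 j), fun i => (mem_Ii i0 i _).2 fun d => ?_⟩
  rw [coeff_row, ← lam_mk]
  exact h2 i d

theorem lam_zero (i : Fin n) (x : MM i0 b) : lam i0 b i 0 x = ∑ j, b i j * mu i0 b j x := by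
  obtain ⟨v, rfl⟩ := Submodule.Quotient.mk_surjective _ x
  simp [lam_mk, mu_mk]

theorem MM_ext (x y : MM i0 b) (h1 : ∀ j, mu i0 b j x = mu i0 b j y)
    (h2 : ∀ i d, lam i0 b i (d + 1) x = lam i0 b i (d + 1) y) : x = y := by
  rw [← sub_eq_zero]
  refine MM_zero i0 b _ (fun j => by rw [map_sub, h1, sub_self]) fun i d => ?_
  rcases d with _ | d
  · rw [lam_zero]
    simp [h1]
  · rw [map_sub, h2, sub_self]

theorem mu_X (j : Fin n) (a : Fin c × Fin n) (x : MM i0 b) :
    mu i0 b j ((X a : Pn K c n) • x) = 0 := by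
  obtain ⟨v, rfl⟩ := Submodule.Quotient.mk_surjective _ x
  rw [← Submodule.Quotient.mk_smul, mu_mk]
  simp [coeff_X_mul']

theorem lam_X (i : Fin n) (d : ℕ) (a : Fin c × Fin n) (x : MM i0 b) :
    lam i0 b i (d + 1) ((X a : Pn K c n) • x) = if a = (i0, i) then lam i0 b i d x else 0 := by
  obtain ⟨v, rfl⟩ := Submodule.Quotient.mk_surjective _ x
  rw [← Submodule.Quotient.mk_smul, lam_mk, lam_mk]
  split_ifs with h
  · subst h
    refine Finset.sum_congr rfl fun j _ => ?_
    rw [Pi.smul_apply, smul_eq_mul, add_comm d 1, Finsupp.single_add, coeff_X_mul]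
  · refine Finset.sum_eq_zero fun j _ => ?_
    rw [Pi.smul_apply, smul_eq_mul, coeff_X_mul', if_neg, mul_zero]
    rw [Finsupp.mem_support_iff, Finsupp.single_eq_of_ne h]
    simp

/-- homogeneous polynomials of integer degree -/
noncomputable def hz (n : ℕ) (j : ℤ) : Submodule K (Pn K c n) :=
  if 0 ≤ j then homogeneousSubmodule (Fin c × Fin n) K j.toNat else ⊥

theorem hz_nat (d : ℕ) (p : Pn K c n) : p ∈ hz n (d : ℤ) ↔ p.IsHomogeneous d := by
  simp [hz]

theorem hz_coeff {j : ℤ} {p : Pn K c n} (hp : p ∈ hz n j) (m : Fin c × Fin n →₀ ℕ)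
    (hm : (m.degree : ℤ) ≠ j) : coeff m p = 0 := by
  unfold hz at hp
  split_ifs at hp with h
  · exact IsHomogeneous.coeff_eq_zero hp (by omega)
  · rw [Submodule.mem_bot] at hp; simp [hp]

theorem hz_cases {j : ℤ} {p : Pn K c n} (hp : p ∈ hz n j) :
    p = 0 ∨ ∃ d : ℕ, j = d ∧ p.IsHomogeneous d := by
  unfold hz at hp
  split_ifs at hp with h
  · exact Or.inr ⟨j.toNat, by omega, hp⟩
  · exact Or.inl hp

/-- the grading -/
noncomputable def gr (j : ℤ) : Submodule K (MM i0 b) :=
  (Submodule.pi Set.univ (fun _ => hz n j)).map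
    ((Rel i0 (Polynomial.X : Polynomial K) (CB b)).mkQ.restrictScalars K)

theorem mem_gr (j : ℤ) (x : MM i0 b) :
    x ∈ gr i0 b j ↔ ∃ v : Fin n → Pn K c n, (∀ k, v k ∈ hz n j) ∧ Submodule.Quotient.mk v = x := by
  simp [gr, Submodule.mem_pi]

theorem mu_gr {j : ℤ} {x : MM i0 b} (hx : x ∈ gr i0 b j) (hj : j ≠ 0) (k : Fin n) :
    mu i0 b k x = 0 := by
  obtain ⟨v, hv, rfl⟩ := (mem_gr i0 b j x).1 hx
  exact hz_coeff (hv k) 0 (by simpa using hj.symm)

theorem lam_gr {j : ℤ} {x : MM i0 b} (hx : x ∈ gr i0 b j) (d : ℕ) (hj : j ≠ d) (i : Fin n) :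
    lam i0 b i d x = 0 := by
  obtain ⟨v, hv, rfl⟩ := (mem_gr i0 b j x).1 hx
  rw [lam_mk]
  refine Finset.sum_eq_zero fun k _ => ?_
  rw [hz_coeff (hv k) _ (by simpa using hj.symm), mul_zero]

theorem gr_neg {j : ℤ} {x : MM i0 b} (hx : x ∈ gr i0 b j) (hj : j < 0) : x = 0 :=
  MM_zero i0 b x (mu_gr i0 b hx (by omega)) fun i d => lam_gr i0 b hx d (by omega) i

theorem gr_internal : DirectSum.IsInternal (gr i0 b) := by
  refine DirectSum.isInternal_submodule_of_iSupIndep_of_iSup_eq_top ?_ ?_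
  · intro j
    rw [Submodule.disjoint_def]
    intro x hx hx'
    refine MM_zero i0 b x (fun k => ?_) (fun i d => ?_)
    · by_cases hj : j = 0
      · have : (⨆ j', ⨆ (_ : j' ≠ j), gr i0 b j') ≤ LinearMap.ker (mu i0 b k) :=
          iSup₂_le fun j' hj' y hy => mu_gr i0 b hy (hj ▸ hj') k
        exact this hx'
      · exact mu_gr i0 b hx hj k
    · by_cases hj : j = d
      · have : (⨆ j', ⨆ (_ : j' ≠ j), gr i0 b j') ≤ LinearMap.ker (lam i0 b i d) :=
          iSup₂_le fun j' hj' y hy => lam_gr i0 b hy d (hj ▸ hj') i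
        exact this hx'
      · exact lam_gr i0 b hx d hj i
  · rw [eq_top_iff]
    intro x _
    obtain ⟨v, rfl⟩ := Submodule.Quotient.mk_surjective _ x
    have hv : v = ∑ k, ∑ d ∈ Finset.range ((v k).totalDegree + 1),
        Pi.single k (homogeneousComponent d (v k)) := by
      conv_lhs => rw [← Finset.univ_sum_single v]
      refine Finset.sum_congr rfl fun k _ => ?_
      conv_lhs => rw [← sum_homogeneousComponent (v k)]
      exact map_sum (LinearMap.single K (fun _ : Fin n => Pn K c n) k) _ _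
    rw [hv, ← Submodule.mkQ_apply, map_sum]
    refine Submodule.sum_mem _ fun k _ => ?_
    rw [map_sum]
    refine Submodule.sum_mem _ fun d _ => ?_
    refine Submodule.mem_iSup_of_mem (d : ℤ) ((mem_gr i0 b _ _).2 ⟨_, fun l => ?_, rfl⟩)
    by_cases hl : l = k
    · subst hl
      rw [Pi.single_eq_same, hz_nat]
      exact homogeneousComponent_isHomogeneous d _
    · rw [Pi.single_eq_of_ne hl]; exact zero_mem _

theorem gr_smul (d : ℕ) (p : Pn K c n) (j : ℤ) (x : MM i0 b) (hp : p.IsHomogeneous d)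
    (hx : x ∈ gr i0 b j) : p • x ∈ gr i0 b (j + d) := by
  obtain ⟨v, hv, rfl⟩ := (mem_gr i0 b j x).1 hx
  refine (mem_gr i0 b _ _).2 ⟨p • v, fun k => ?_, rfl⟩
  rcases hz_cases (hv k) with h | ⟨e, rfl, h⟩
  · simp [h]
  · rw [← Nat.cast_add, hz_nat, add_comm]
    exact hp.mul h

theorem push_hz {m : ℕ} (ε : Fin m → Fin n) (j : ℤ) (v : Fin m → Pn K c m)
    (hv : ∀ k, v k ∈ hz m j) (l : Fin n) : push ε v l ∈ hz n j := by
  rw [push_apply, Finset.sum_apply]
  refine Submodule.sum_mem _ fun k _ => ?_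
  by_cases hl : l = ε k
  · subst hl
    rw [Pi.single_eq_same]
    rcases hz_cases (hv k) with h | ⟨e, rfl, h⟩
    · simp [h]
    · rw [hz_nat]; exact h.rename_isHomogeneous
  · rw [Pi.single_eq_of_ne hl]; exact zero_mem _

theorem solve_pos (hb : ∀ i, ∃ k, b i k ≠ 0) (d : ℕ) (γ : Fin n → K) :
    ∃ x ∈ gr i0 b ((d + 1 : ℕ) : ℤ), ∀ i, lam i0 b i (d + 1) x = γ i := by
  choose k hk using hb
  refine ⟨∑ i, Submodule.Quotient.mk (Pi.single (k i)
    (monomial (Finsupp.single (i0, i) (d + 1)) ((b i (k i))⁻¹ * γ i))), ?_, fun i => ?_⟩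
  · refine Submodule.sum_mem _ fun i _ => (mem_gr i0 b _ _).2 ⟨_, fun l => ?_, rfl⟩
    by_cases hl : l = k i
    · subst hl
      rw [Pi.single_eq_same, hz_nat]
      exact isHomogeneous_monomial _ (by simp)
    · rw [Pi.single_eq_of_ne hl]; exact zero_mem _
  · rw [map_sum, Finset.sum_eq_single i]
    · rw [lam_mk, Finset.sum_eq_single (k i)]
      · rw [Pi.single_eq_same, coeff_monomial, if_pos rfl, ← mul_assoc, mul_inv_cancel₀ (hk i),
          one_mul]
      · intro l _ hl; simp [hl]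
      · simp
    · intro l _ hl
      rw [lam_mk]
      refine Finset.sum_eq_zero fun j _ => ?_
      by_cases hj : j = k l
      · subst hj
        rw [Pi.single_eq_same, coeff_monomial, if_neg, mul_zero]
        intro h
        have := (Finsupp.single_left_inj (Nat.succ_ne_zero d)).1 h
        exact hl (Prod.ext_iff.1 this).2
      · simp [hj]
    · simp

theorem solve_zero (hb : Function.Surjective b.mulVec) (γ : Fin n → K) :
    ∃ x ∈ gr i0 b ((0 : ℕ) : ℤ), ∀ i, lam i0 b i 0 x = γ i := by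
  obtain ⟨β, rfl⟩ := hb γ
  refine ⟨Submodule.Quotient.mk (fun j => C (β j)), (mem_gr i0 b _ _).2 ⟨_, fun l => ?_, rfl⟩,
    fun i => ?_⟩
  · rw [hz_nat]; exact isHomogeneous_C _ _
  · rw [lam_mk]
    simp [Matrix.mulVec, dotProduct]

/-- the graded module attached to a natural family of matrices over `K` -/
noncomputable def mkGr (Mor : ∀ m n : ℕ, (Fin m → Fin n) → Prop)
    (hinj : ∀ m n ε, Mor m n ε → Function.Injective ε) (b : ∀ n, Matrix (Fin n) (Fin n) K)
    (hb : ∀ m n ε, Mor m n ε → ∀ i j, b n (ε i) (ε j) = b m i j) : GrPMod Mor K c where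
  toPMod := mkMod i0 Polynomial.X Mor hinj (fun n => CB (b n))
    (fun m n ε h i j => by simp [CB, Pmap, hb m n ε h])
  grade n := gr i0 (b n)
  internal n := gr_internal i0 (b n)
  smul_mem n d p j x hp hx := gr_smul i0 (b n) d p j x hp hx
  map_mem {m n} ε h j x hx := by
    obtain ⟨v, hv, rfl⟩ := (mem_gr i0 (b m) j x).1 hx
    exact (mem_gr i0 (b n) _ _).2 ⟨push ε v, push_hz ε j v hv, rfl⟩

section main

variable (Mor : ∀ m n : ℕ, (Fin m → Fin n) → Prop)
    (hinj : ∀ m n ε, Mor m n ε → Function.Injective ε) (bb : ∀ n, Matrix (Fin n) (Fin n) K)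
    (hb : ∀ m n ε, Mor m n ε → ∀ i j, bb n (ε i) (ε j) = bb m i j)

theorem mkGr_FG (h1 : ∀ n (j : Fin n), Mor 1 n (fun _ => j)) : (mkGr i0 Mor hinj bb hb).FG := by
  refine ⟨1, fun _ => 1, fun _ => Submodule.Quotient.mk (Pi.single 0 1), fun _ => ⟨(0 : ℕ), ?_⟩,
    fun n => ?_⟩
  · refine (mem_gr i0 (bb 1) _ _).2 ⟨_, fun l => ?_, rfl⟩
    rw [hz_nat, Subsingleton.elim l 0, Pi.single_eq_same]
    exact isHomogeneous_one _ _
  · rw [eq_top_iff]
    intro x _
    obtain ⟨v, rfl⟩ := Submodule.Quotient.mk_surjective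
      (Rel i0 (Polynomial.X : Polynomial K) (CB (bb n))) x
    have hv : v = ∑ j, v j • (Pi.single j 1 : Fin n → Pn K c n) := by
      ext1 k
      simp [Finset.sum_apply, Pi.single_apply]
    have : (Submodule.Quotient.mk v : MM i0 (bb n)) =
        ∑ j, v j • Submodule.Quotient.mk (Pi.single j 1) := by
      conv_lhs => rw [hv]
      rw [← Submodule.mkQ_apply, map_sum]
      simp only [map_smul, Submodule.mkQ_apply]
    rw [this]
    refine Submodule.sum_mem _ fun j _ => Submodule.smul_mem _ _ (Submodule.subset_span ?_)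
    refine ⟨0, fun _ => j, h1 n j, ?_⟩
    change _ = Submodule.Quotient.mk (push (fun _ => j) (Pi.single 0 1))
    rw [push_single, map_one]

/-- the Koszul sign -/
def sg {n : ℕ} (B : Finset (Fin c × Fin n)) (a : Fin c × Fin n) : K :=
  (-1 : K) ^ (B.filter (fun b => toLex b < toLex a)).card

/-- the Koszul differential on the concrete type -/
noncomputable def DD {n : ℕ} (b : Matrix (Fin n) (Fin n) K)
    (z : Finset (Fin c × Fin n) → MM i0 b) : Finset (Fin c × Fin n) → MM i0 b :=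
  fun B => ∑ a ∈ Finset.univ \ B, (sg B a : K) • ((X a : Pn K c n) • z (insert a B))

/-- the Koszul chains on the concrete type -/
def CH {n : ℕ} (b : Matrix (Fin n) (Fin n) K) (i : ℕ) (j : ℤ)
    (z : Finset (Fin c × Fin n) → MM i0 b) : Prop :=
  ∀ A, (A.card = i → z A ∈ gr i0 b (j - i)) ∧ (A.card ≠ i → z A = 0)

theorem betti_iff (n i : ℕ) (j : ℤ) : ¬ (mkGr i0 Mor hinj bb hb).BettiNeZero n i j ↔
    ∀ z : Finset (Fin c × Fin n) → MM i0 (bb n), CH i0 (bb n) i j z → DD i0 (bb n) z = 0 →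
      ∃ y, CH i0 (bb n) (i + 1) j y ∧ DD i0 (bb n) y = z := by
  unfold GrPMod.BettiNeZero
  simp only [not_exists, not_and, not_forall, not_not, exists_prop]
  exact Iff.rfl

theorem mu_D {n : ℕ} (b : Matrix (Fin n) (Fin n) K) (z : Finset (Fin c × Fin n) → MM i0 b)
    (B : Finset (Fin c × Fin n)) (k : Fin n) : mu i0 b k (DD i0 b z B) = 0 := by
  unfold DD
  rw [map_sum]
  refine Finset.sum_eq_zero fun a _ => ?_
  rw [map_smul, mu_X, smul_zero]

theorem sg_sq {n : ℕ} (B : Finset (Fin c × Fin n)) (a : Fin c × Fin n) :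
    (sg B a : K) * sg B a = 1 := by
  unfold sg
  rw [← mul_pow]; simp

theorem sg_ne {n : ℕ} (B : Finset (Fin c × Fin n)) (a : Fin c × Fin n) : (sg B a : K) ≠ 0 :=
  left_ne_zero_of_mul_eq_one (sg_sq B a)

theorem lam_D {n : ℕ} (b : Matrix (Fin n) (Fin n) K) (z : Finset (Fin c × Fin n) → MM i0 b)
    (B : Finset (Fin c × Fin n)) (k : Fin n) (e : ℕ) : lam i0 b k (e + 1) (DD i0 b z B) =
      if (i0, k) ∈ B then 0 else sg B (i0, k) * lam i0 b k e (z (insert (i0, k) B)) := by
  unfold DD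
  rw [map_sum]
  simp only [map_smul, lam_X, smul_eq_mul, mul_ite, mul_zero]
  rw [Finset.sum_ite_eq']
  by_cases h : (i0, k) ∈ B <;> simp [h]

theorem betti_vanish (n i e : ℕ) (j : ℤ) (hj : j - i = (e + 1 : ℕ))
    (hs : ∀ γ : Fin n → K, ∃ x ∈ gr i0 (bb n) (e : ℤ), ∀ k, lam i0 (bb n) k e x = γ k) :
    ¬ (mkGr i0 Mor hinj bb hb).BettiNeZero n i j := by
  rw [betti_iff]
  intro z hz hD
  have hzg : ∀ A, z A ∈ gr i0 (bb n) ((e + 1 : ℕ) : ℤ) := fun A => by
    by_cases hA : A.card = i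
    · rw [← hj]; exact (hz A).1 hA
    · rw [(hz A).2 hA]; exact zero_mem _
  choose y hy1 hy2 using fun A : Finset (Fin c × Fin n) => hs (fun k =>
    if (i0, k) ∈ A then sg (A.erase (i0, k)) (i0, k) *
      lam i0 (bb n) k (e + 1) (z (A.erase (i0, k))) else 0)
  have hyg : ∀ A : Finset (Fin c × Fin n),
      (if A.card = i + 1 then y A else 0) ∈ gr i0 (bb n) (e : ℤ) := fun A => by
    split_ifs
    · exact hy1 A
    · exact zero_mem _
  refine ⟨fun A => if A.card = i + 1 then y A else 0, ?_, ?_⟩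
  · intro A
    refine ⟨fun hA => ?_, fun hA => if_neg hA⟩
    have : j - ((i + 1 : ℕ) : ℤ) = e := by push_cast at hj ⊢; omega
    rw [this]
    exact hyg A
  · funext A
    refine MM_ext i0 (bb n) _ _ (fun k => ?_) (fun k d => ?_)
    · rw [mu_D, mu_gr i0 (bb n) (hzg A) (by omega)]
    · rw [lam_D]
      by_cases hd : d = e
      · subst hd
        split_ifs with hk hc
        · have := lam_D i0 (bb n) z (A.erase (i0, k)) k (d + 1)
          rw [hD, if_neg (Finset.notMem_erase _ _), Finset.insert_erase hk] at this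
          have h0 : sg (A.erase (i0, k)) (i0, k) * lam i0 (bb n) k (d + 1) (z A) = 0 := by
            rw [← this]; exact map_zero _
          exact ((mul_eq_zero.1 h0).resolve_left (sg_ne _ _)).symm
        · rw [hy2, if_pos (Finset.mem_insert_self _ _), Finset.erase_insert hk, ← mul_assoc, sg_sq,
            one_mul]
        · rw [Finset.card_insert_of_notMem hk] at hc
          rw [(hz A).2 (by omega)]
          simp
      · rw [lam_gr i0 (bb n) (hzg A) (d + 1) (by omega), lam_gr i0 (bb n) (hyg _) d (by omega)]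
        simp

theorem betti_zero_zero (n : ℕ) (k : Fin n) : (mkGr i0 Mor hinj bb hb).BettiNeZero n 0 0 := by
  by_contra h
  rw [betti_iff] at h
  obtain ⟨y, hy, hD⟩ := h (fun A => if A = ∅ then
    (Submodule.Quotient.mk (Pi.single k 1) : MM i0 (bb n)) else 0) (by
      intro A
      refine ⟨fun hA => ?_, fun hA => if_neg (by rintro rfl; simp at hA)⟩
      simp only [if_pos (Finset.card_eq_zero.1 hA)]
      refine (mem_gr i0 (bb n) _ _).2 ⟨_, fun l => ?_, rfl⟩
      have : (0 : ℤ) - ((0 : ℕ) : ℤ) = ((0 : ℕ) : ℤ) := by simp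
      rw [this, hz_nat]
      by_cases hl : l = k
      · subst hl; rw [Pi.single_eq_same]; exact isHomogeneous_one _ _
      · rw [Pi.single_eq_of_ne hl]; exact isHomogeneous_zero _ _ _) (by
      funext B
      refine Finset.sum_eq_zero fun a _ => ?_
      simp only [if_neg (Finset.insert_ne_empty a B), smul_zero])
  have h1 := mu_D i0 (bb n) y ∅ k
  rw [hD] at h1
  simp only [if_true] at h1
  rw [mu_mk] at h1
  simp at h1

theorem betti_sing (n : ℕ) (hn : 1 ≤ n) (hrow : ∀ i, ∃ k, bb n i k ≠ 0)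
    (hs : ¬ Function.Surjective (bb n).mulVec) :
    (mkGr i0 Mor hinj bb hb).BettiNeZero n (c * n - 1) ((c * n : ℕ) : ℤ) := by
  obtain ⟨γ, hγ⟩ : ∃ γ : Fin n → K, ∀ β, (bb n).mulVec β ≠ γ := by
    by_contra hcon
    push Not at hcon
    exact hs hcon
  have hc := card_erase i0 (⟨0, by omega⟩ : Fin n)
  choose y hy1 hy2 using fun k : Fin n => solve_pos i0 (bb n) hrow 0
    (Pi.single k (sg ((Finset.univ : Finset (Fin c × Fin n)).erase (i0, k)) (i0, k) * γ k))
  let z : Finset (Fin c × Fin n) → MM i0 (bb n) := fun A =>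
    ∑ k, if A = Finset.univ.erase (i0, k) then y k else 0
  have hzg : ∀ A, z A ∈ gr i0 (bb n) ((0 + 1 : ℕ) : ℤ) := fun A =>
    Submodule.sum_mem _ fun k _ => by
      split_ifs
      · exact hy1 k
      · exact zero_mem _
  have hz1 : ∀ A l, lam i0 (bb n) l (0 + 1) (z A) = if A = Finset.univ.erase (i0, l) then
      sg ((Finset.univ : Finset (Fin c × Fin n)).erase (i0, l)) (i0, l) * γ l else 0 := by
    intro A l
    simp only [z]
    rw [map_sum, Finset.sum_eq_single l]
    · split_ifs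
      · rw [hy2, Pi.single_eq_same]
      · exact map_zero _
    · intro k _ hk
      split_ifs
      · rw [hy2, Pi.single_eq_of_ne hk.symm]
      · exact map_zero _
    · simp
  by_contra h
  rw [betti_iff] at h
  obtain ⟨w, hw, hD⟩ := h z (by
      intro A
      refine ⟨fun hA => ?_, fun hA => ?_⟩
      · have : ((c * n : ℕ) : ℤ) - ((c * n - 1 : ℕ) : ℤ) = ((0 + 1 : ℕ) : ℤ) := by omega
        rw [this]
        exact hzg A
      · refine Finset.sum_eq_zero fun k _ => if_neg ?_
        rintro rfl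
        have := card_erase i0 k
        omega) (by
      funext B
      refine MM_ext i0 (bb n) _ _ (fun k => ?_) (fun k d => ?_)
      · rw [mu_D]; exact (map_zero _).symm
      · rw [lam_D, Pi.zero_apply, map_zero]
        split_ifs with hk
        · rfl
        · by_cases hd : d = 0 + 1
          · subst hd
            rw [hz1, if_neg, mul_zero]
            intro h
            have := Finset.mem_insert_self (i0, k) B
            rw [h] at this
            exact Finset.notMem_erase _ _ this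
          · rw [lam_gr i0 (bb n) (hzg _) d (by omega), mul_zero])
  apply hγ (fun j => mu i0 (bb n) j (w Finset.univ))
  funext k
  have h1 := lam_D i0 (bb n) w (Finset.univ.erase (i0, k)) k 0
  rw [hD, hz1, if_pos rfl, if_neg (Finset.notMem_erase _ _),
    Finset.insert_erase (Finset.mem_univ _), lam_zero] at h1
  exact (mul_left_cancel₀ (sg_ne _ _) h1).symm

theorem hasReg_unit (n : ℕ) (hn : 1 ≤ n) (hrow : ∀ i, ∃ k, bb n i k ≠ 0)
    (hs : Function.Surjective (bb n).mulVec) : (mkGr i0 Mor hinj bb hb).HasReg n 0 := by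
  refine ⟨⟨0, 0, betti_zero_zero i0 Mor hinj bb hb n ⟨0, by omega⟩, by simp⟩, ?_⟩
  rintro s ⟨i, j, hij, rfl⟩
  by_contra hcon
  revert hij
  obtain ⟨e, he⟩ : ∃ e : ℕ, j - i = (e + 1 : ℕ) := ⟨(j - i - 1).toNat, by omega⟩
  refine betti_vanish i0 Mor hinj bb hb n i e j he ?_
  rcases e with _ | e
  · exact solve_zero i0 (bb n) hs
  · exact solve_pos i0 (bb n) hrow e

theorem hasReg_sing (n : ℕ) (hn : 1 ≤ n) (hrow : ∀ i, ∃ k, bb n i k ≠ 0)
    (hs : ¬ Function.Surjective (bb n).mulVec) : (mkGr i0 Mor hinj bb hb).HasReg n 1 := by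
  have hc := card_erase i0 (⟨0, by omega⟩ : Fin n)
  refine ⟨⟨_, _, betti_sing i0 Mor hinj bb hb n hn hrow hs, by omega⟩, ?_⟩
  rintro s ⟨i, j, hij, rfl⟩
  by_contra hcon
  revert hij
  obtain ⟨e, he⟩ : ∃ e : ℕ, j - i = (e + 1 + 1 : ℕ) := ⟨(j - i - 2).toNat, by omega⟩
  exact betti_vanish i0 Mor hinj bb hb n i (e + 1) j he (solve_pos i0 (bb n) hrow e)

end main

end Pool.Agent.H750Z.Reg
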