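import Pool.Agent.H750Z.Reg

set_option autoImplicit false

namespace Pool.Agent.H750Z.RegMain

open Reg Filter

universe u

variable {K : Type u} [Field K] {c : ℕ}

/-- the skew-symmetric matrix with `1` above the diagonal -/
def skew (K : Type u) [Field K] (n : ℕ) : Matrix (Fin n) (Fin n) K :=
  fun i j => if i < j then 1 else if j < i then -1 else 0

/-- the matrix `I + J` -/
def idJ (K : Type u) [Field K] (n : ℕ) : Matrix (Fin n) (Fin n) K :=
  fun i j => (if i = j then 1 else 0) + 1

theorem surj_iff_inj {n : ℕ} (b : Matrix (Fin n) (Fin n) K) :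
    Function.Surjective b.mulVec ↔ ∀ β, b.mulVec β = 0 → β = 0 := by
  rw [Matrix.mulVec_surjective_iff_isUnit, ← Matrix.mulVec_injective_iff_isUnit]
  exact injective_iff_map_eq_zero b.mulVecLin

theorem idJ_mulVec {n : ℕ} (β : Fin n → K) (i : Fin n) :
    (idJ K n).mulVec β i = β i + ∑ j, β j := by
  simp [idJ, Matrix.mulVec, dotProduct, add_mul, Finset.sum_add_distrib]

theorem idJ_surj {n : ℕ} (hn : 1 ≤ n) :
    Function.Surjective (idJ K n).mulVec ↔ ((n + 1 : ℕ) : K) ≠ 0 := by
  rw [surj_iff_inj]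
  constructor
  · intro h h0
    have := h (fun _ => 1) (by
      funext i
      rw [idJ_mulVec]
      simpa [add_comm] using h0)
    have := congrFun this ⟨0, by omega⟩
    simp at this
  · intro h β hβ
    have h1 : ∀ i, β i + ∑ j, β j = 0 := fun i => by rw [← idJ_mulVec, hβ]; rfl
    have h2 : ((n + 1 : ℕ) : K) * ∑ j, β j = 0 := by
      have := Finset.sum_eq_zero (s := Finset.univ) (fun i _ => h1 i)
      rw [Finset.sum_add_distrib] at this
      simp only [Finset.sum_const, Finset.card_univ, Fintype.card_fin, nsmul_eq_mul] at this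
      push_cast
      linear_combination this
    have h3 := (mul_eq_zero.1 h2).resolve_left h
    funext i
    simpa [h3] using h1 i

/-- the rows of the skew matrix on sequences -/
def srow (n i : ℕ) (f : ℕ → K) : K :=
  ∑ j ∈ Finset.range n, (if i < j then 1 else if j < i then -1 else 0) * f j

theorem skew_mulVec {n : ℕ} (f : ℕ → K) (i : Fin n) :
    (skew K n).mulVec (fun j => f j) i = srow n i f := by
  unfold srow
  rw [← Fin.sum_univ_eq_sum_range (fun j => (if i.1 < j then 1 else if j < i.1 then -1 else 0) * f j)]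
  simp only [skew, Matrix.mulVec, dotProduct, Fin.lt_def]

theorem srow_step (n i : ℕ) (f : ℕ → K) (hi : i + 1 < n) :
    srow n i f - srow n (i + 1) f = f i + f (i + 1) := by
  unfold srow
  rw [← Finset.sum_sub_distrib]
  have : ∀ j ∈ Finset.range n, (if i < j then 1 else if j < i then -1 else 0) * f j -
      (if i + 1 < j then 1 else if j < i + 1 then -1 else 0) * f j =
      (if j = i then f j else 0) + (if j = i + 1 then f j else 0) := by
    intro j _
    split_ifs <;> first | omega | ring
  rw [Finset.sum_congr rfl this, Finset.sum_add_distrib, Finset.sum_ite_eq', Finset.sum_ite_eq',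
    if_pos (Finset.mem_range.2 (by omega)), if_pos (Finset.mem_range.2 hi)]

theorem srow_zero_alt (n : ℕ) (a : K) :
    srow (n + 1) 0 (fun j => (-1) ^ j * a) = if Even n then 0 else -a := by
  induction n with
  | zero => simp [srow]
  | succ n ih =>
    unfold srow at ih ⊢
    rw [Finset.sum_range_succ, ih]
    by_cases h : Even n
    · have h' : ¬ Even (n + 1) := by simpa [Nat.even_add_one] using h
      rw [if_pos h, if_neg h', if_pos (Nat.succ_pos n)]
      simp only [pow_succ, h.neg_one_pow]
      ring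
    · have h' : Even (n + 1) := by simpa [Nat.even_add_one] using h
      rw [if_neg h, if_pos h', if_pos (Nat.succ_pos n)]
      simp only [h'.neg_one_pow]
      ring

theorem skew_surj {n : ℕ} (hn : 1 ≤ n) :
    Function.Surjective (skew K n).mulVec ↔ ¬ 2 ∣ n + 1 := by
  obtain ⟨m, rfl⟩ : ∃ m, n = m + 1 := ⟨n - 1, by omega⟩
  rw [surj_iff_inj]
  constructor
  · intro h h0
    have hm : Even m := by
      rw [even_iff_two_dvd]; omega
    have key : ∀ i, i < m + 1 → srow (m + 1) i (fun j => (-1 : K) ^ j * 1) = 0 := by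
      intro i
      induction i with
      | zero => intro _; rw [srow_zero_alt, if_pos hm]
      | succ i ih =>
        intro hi
        have h1 := srow_step (m + 1) i (fun j => (-1 : K) ^ j * 1) hi
        rw [ih (by omega)] at h1
        linear_combination -h1
    have := h (fun j => (fun j : ℕ => (-1 : K) ^ j * 1) j) (by
      funext i
      rw [skew_mulVec (fun j : ℕ => (-1 : K) ^ j * 1)]
      exact key i i.2)
    have := congrFun this ⟨0, by omega⟩
    simp at this
  · intro h β hβ
    have hm : ¬ Even m := by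
      rw [even_iff_two_dvd]; omega
    let f : ℕ → K := fun j => if h : j < m + 1 then β ⟨j, h⟩ else 0
    have hf : β = fun j : Fin (m + 1) => f j := by
      funext j; simp only [f, dif_pos j.2]
    have h1 : ∀ i, i < m + 1 → srow (m + 1) i f = 0 := fun i hi => by
      have := skew_mulVec f (⟨i, hi⟩ : Fin (m + 1))
      rw [← hf, hβ] at this
      exact this.symm
    have h2 : ∀ i, i < m + 1 → f i = (-1) ^ i * f 0 := by
      intro i
      induction i with
      | zero => simp
      | succ i ih =>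
        intro hi
        have h3 := srow_step (m + 1) i f hi
        rw [h1 i (by omega), h1 (i + 1) hi, ih (by omega)] at h3
        linear_combination -h3
    have h4 : srow (m + 1) 0 f = srow (m + 1) 0 (fun j => (-1) ^ j * f 0) := by
      unfold srow
      refine Finset.sum_congr rfl fun j hj => ?_
      rw [h2 j (Finset.mem_range.1 hj)]
    rw [h1 0 (by omega), srow_zero_alt, if_neg hm] at h4
    have h5 : f 0 = 0 := by linear_combination h4
    rw [hf]
    funext j
    rw [h2 j j.2, h5, mul_zero]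
    rfl

theorem main_gen (hc : 1 ≤ c) (Mor : ∀ m n : ℕ, (Fin m → Fin n) → Prop)
    (hinj : ∀ m n ε, Mor m n ε → Function.Injective ε)
    (h1 : ∀ n (j : Fin n), Mor 1 n (fun _ => j)) (bb : ∀ n, Matrix (Fin n) (Fin n) K)
    (hb : ∀ m n ε, Mor m n ε → ∀ i j, bb n (ε i) (ε j) = bb m i j) (q : ℕ)
    (hoff : ∀ n (i j : Fin n), i ≠ j → bb n i j ≠ 0)
    (hq : ∀ n, 1 ≤ n → (Function.Surjective (bb n).mulVec ↔ ¬ q ∣ n + 1)) :
    ∃ M : GrPMod Mor K c, M.FG ∧ ∀ n, 2 ≤ n → M.HasReg n (if q ∣ n + 1 then 1 else 0) := by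
  let i0 : Fin c := ⟨0, by omega⟩
  refine ⟨mkGr i0 Mor hinj bb hb, mkGr_FG i0 Mor hinj bb hb h1, fun n hn => ?_⟩
  have hrow : ∀ i, ∃ k, bb n i k ≠ 0 := fun i => by
    have : Nontrivial (Fin n) := Fin.nontrivial_iff_two_le.2 hn
    obtain ⟨k, hk⟩ := exists_ne i
    exact ⟨k, hoff n i k hk.symm⟩
  split_ifs with h
  · exact hasReg_sing i0 Mor hinj bb hb n (by omega) hrow
      (fun hs => (hq n (by omega)).1 hs h)
  · exact hasReg_unit i0 Mor hinj bb hb n (by omega) hrow ((hq n (by omega)).2 h)

theorem main (hc : 1 ≤ c) (Mor : ∀ m n : ℕ, (Fin m → Fin n) → Prop)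
    (hMor : Mor = OI ∨ (Mor = FI ∧ ringChar K ≠ 0)) :
    ∃ M : GrPMod Mor K c, M.FG ∧ ∃ q : ℕ, 2 ≤ q ∧
      ∀ n, 2 ≤ n → M.HasReg n (if q ∣ n + 1 then 1 else 0) := by
  rcases hMor with rfl | ⟨rfl, hp⟩
  · obtain ⟨M, hM1, hM2⟩ := main_gen (K := K) hc OI (fun m n ε h => StrictMono.injective h)
      (fun n j => Subsingleton.strictMono _) (skew K)
      (fun m n ε h i j => by simp only [skew, StrictMono.lt_iff_lt h]) 2
      (fun n i j hij => by
        unfold skew
        rcases lt_or_gt_of_ne hij with h | h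
        · simp [h]
        · simp [h, not_lt_of_gt h])
      (fun n hn => skew_surj hn)
    exact ⟨M, hM1, 2, le_refl _, hM2⟩
  · have hpp : (ringChar K).Prime := (CharP.char_is_prime_or_zero K (ringChar K)).resolve_right hp
    obtain ⟨M, hM1, hM2⟩ := main_gen (K := K) hc FI (fun m n ε h => h)
      (fun n j => Function.injective_of_subsingleton _) (idJ K)
      (fun m n ε h i j => by simp only [idJ, Function.Injective.eq_iff h]) (ringChar K)
      (fun n i j hij => by simp [idJ, hij])
      (fun n hn => by rw [idJ_surj hn, Ne, ringChar.spec])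
    exact ⟨M, hM1, _, hpp.two_le, hM2⟩

theorem nonlinear {Mor : ∀ m n : ℕ, (Fin m → Fin n) → Prop} (M : GrPMod Mor K c) (q : ℕ)
    (hq : 2 ≤ q) (hd : ∀ n, 2 ≤ n → M.HasReg n (if q ∣ n + 1 then 1 else 0)) :
    ¬ ∃ a b : ℤ, ∀ᶠ n : ℕ in atTop, M.HasReg n (a * n + b) := by
  rintro ⟨A, B, h⟩
  obtain ⟨N, hN⟩ := eventually_atTop.1 h
  have key : ∀ n, N + 2 ≤ n → ((if q ∣ n + 1 then 1 else 0 : ℤ)) = A * n + B := fun n hn =>
    IsGreatest.unique (hd n (by omega)) (hN n (by omega))
  obtain ⟨t, ht⟩ : ∃ t, q * (N + 3) = t + 1 := ⟨q * (N + 3) - 1, by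
    have : 0 < q * (N + 3) := by positivity
    omega⟩
  have ht2 : N + 2 ≤ t := by nlinarith
  have e1 := key t ht2
  have e2 := key (t + q) (by omega)
  have e3 := key (t + 1) (by omega)
  rw [if_pos ⟨N + 3, ht.symm⟩] at e1
  rw [if_pos ⟨N + 4, by rw [show t + q + 1 = t + 1 + q by ring, ← ht]; ring⟩] at e2
  rw [if_neg (by
    intro h
    rw [← ht] at h
    have := (Nat.dvd_add_right (Dvd.intro _ rfl)).1 h
    have := Nat.le_of_dvd one_pos this
    omega)] at e3
  push_cast at e1 e2 e3
  have hA : A * q = 0 := by linear_combination e1 - e2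
  have hq0 : (q : ℤ) ≠ 0 := by omega
  have hA' : A = 0 := (mul_eq_zero.1 hA).resolve_right hq0
  subst hA'
  linarith

end Pool.Agent.H750Z.RegMain
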